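import Pool.Agent.H20.Tpf.Dist

/-! # Components, balls and hubs -/

set_option autoImplicit false
set_option linter.unusedSectionVars false
set_option linter.unusedVariables false

namespace Pool.Agent.H20.Tpf
open Finset

section
variable {V : Type} [Fintype V] [DecidableEq V] {G : SimpleGraph V}

/-- the component of `v` in `G[X]` -/
noncomputable def cmp (G : SimpleGraph V) (X : Finset V) (v : V) : Finset V := by
  classical exact X.filter (fun u => (res G X).Reachable v u)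

lemma mem_cmp {X : Finset V} {u v : V} : u ∈ cmp G X v ↔ u ∈ X ∧ (res G X).Reachable v u := by
  classical
  unfold cmp
  rw [mem_filter]

lemma cmp_sub {X : Finset V} {v : V} : cmp G X v ⊆ X := fun _ h => (mem_cmp.1 h).1

lemma self_mem_cmp {X : Finset V} {v : V} (hv : v ∈ X) : v ∈ cmp G X v :=
  mem_cmp.2 ⟨hv, .refl _⟩

/-- walks with support in a set -/
lemma walk_in {X Y : Finset V} {u v : V} (w : (res G X).Walk u v) (h : ∀ x ∈ w.support, x ∈ Y) :
    ∃ w' : (res G Y).Walk u v, w'.length = w.length := by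
  induction w with
  | nil => exact ⟨.nil, rfl⟩
  | @cons a b c hab p ih =>
    obtain ⟨w', hw'⟩ := ih (fun x hx => h x (by
      rw [SimpleGraph.Walk.support_cons]; exact List.mem_cons_of_mem _ hx))
    refine ⟨.cons (show (res G Y).Adj a b from ⟨hab.1, h a (by simp), h b (by simp)⟩) w', ?_⟩
    simp [hw']

lemma walk_support_cmp {X : Finset V} {u v : V} (w : (res G X).Walk u v) (hu : u ∈ X) :
    ∀ x ∈ w.support, x ∈ cmp G X u := by
  classical
  intro x hx
  rw [mem_cmp]
  have h1 : (res G X).Reachable u x := ⟨w.takeUntil x hx⟩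
  exact ⟨reach_mem hu h1, h1⟩

lemma conn_cmp {X : Finset V} {v : V} (hv : v ∈ X) : Conn G (cmp G X v) := by
  refine ⟨⟨v, self_mem_cmp hv⟩, ?_⟩
  have key : ∀ u ∈ cmp G X v, (res G (cmp G X v)).Reachable v u := by
    intro u hu
    obtain ⟨w⟩ := (mem_cmp.1 hu).2
    obtain ⟨w', _⟩ := walk_in w (walk_support_cmp w hv)
    exact ⟨w'⟩
  intro a ha b hb
  exact (key a ha).symm.trans (key b hb)

lemma cmp_closed {X : Finset V} {v x y : V} (hx : x ∈ cmp G X v) (hy : y ∈ X) (h : G.Adj x y) :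
    y ∈ cmp G X v := by
  rw [mem_cmp] at hx ⊢
  refine ⟨hy, hx.2.trans ?_⟩
  exact SimpleGraph.Adj.reachable (show (res G X).Adj x y from ⟨h, hx.1, hy⟩)

lemma cmp_eq_of_mem {X : Finset V} {u v : V} (h : u ∈ cmp G X v) : cmp G X u = cmp G X v := by
  ext x
  rw [mem_cmp] at h
  rw [mem_cmp, mem_cmp]
  constructor
  · rintro ⟨h1, h2⟩
    exact ⟨h1, h.2.trans h2⟩
  · rintro ⟨h1, h2⟩
    exact ⟨h1, h.2.symm.trans h2⟩

/-- the set of components of `G[X]` -/
noncomputable def parts (G : SimpleGraph V) (X : Finset V) : Finset (Finset V) :=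
  X.image (cmp G X)

lemma mem_parts {X C : Finset V} : C ∈ parts G X ↔ ∃ v ∈ X, cmp G X v = C := by
  unfold parts
  rw [mem_image]

lemma parts_sub {X C : Finset V} (h : C ∈ parts G X) : C ⊆ X := by
  obtain ⟨v, _, rfl⟩ := mem_parts.1 h
  exact cmp_sub

lemma parts_conn {X C : Finset V} (h : C ∈ parts G X) : Conn G C := by
  obtain ⟨v, hv, rfl⟩ := mem_parts.1 h
  exact conn_cmp hv

lemma parts_closed {X C : Finset V} (h : C ∈ parts G X) {x y : V} (hx : x ∈ C) (hy : y ∈ X)
    (hxy : G.Adj x y) : y ∈ C := by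
  obtain ⟨v, hv, rfl⟩ := mem_parts.1 h
  exact cmp_closed hx hy hxy

lemma parts_eq_of_mem {X C C' : Finset V} (h : C ∈ parts G X) (h' : C' ∈ parts G X) {x : V}
    (hx : x ∈ C) (hx' : x ∈ C') : C = C' := by
  obtain ⟨v, hv, rfl⟩ := mem_parts.1 h
  obtain ⟨v', hv', rfl⟩ := mem_parts.1 h'
  rw [← cmp_eq_of_mem hx, cmp_eq_of_mem hx']

lemma parts_pair {X C C' : Finset V} (h : C ∈ parts G X) (h' : C' ∈ parts G X) (hne : C ≠ C') :
    Disjoint C C' ∧ ¬ Touch G C C' := by
  constructor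
  · rw [disjoint_left]
    intro x hx hx'
    exact hne (parts_eq_of_mem h h' hx hx')
  · rintro ⟨x, hx, y, hy, hxy⟩
    exact hne (parts_eq_of_mem h h' (parts_closed h hx (parts_sub h' hy) hxy) hy)

lemma parts_biUnion {X : Finset V} : (parts G X).biUnion id = X := by
  ext x
  simp only [mem_biUnion, id_eq]
  constructor
  · rintro ⟨C, hC, hx⟩
    exact parts_sub hC hx
  · intro hx
    exact ⟨cmp G X x, mem_parts.2 ⟨x, hx, rfl⟩, self_mem_cmp hx⟩

/-- first exit of a walk from `Y` -/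
lemma exit {Y X : Finset V} {u w : V} (hu : u ∈ Y) (hw : w ∉ Y) (p : (res G X).Walk u w) :
    ∃ x y, x ∈ Y ∧ y ∈ X ∧ y ∉ Y ∧ G.Adj x y ∧ ∃ (q : (res G Y).Walk u x) (q' : (res G X).Walk y w),
      q.length + 1 + q'.length = p.length := by
  induction p with
  | nil => exact absurd hu hw
  | @cons x y z hxy p ih =>
    by_cases hy : y ∈ Y
    · obtain ⟨x', y', h1, h2, h3, h4, q, q', hq⟩ := ih hy hw
      refine ⟨x', y', h1, h2, h3, h4, .cons (show (res G Y).Adj x y from ⟨hxy.1, hu, hy⟩) q, q', ?_⟩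
      simp only [SimpleGraph.Walk.length_cons]
      omega
    · exact ⟨x, y, hu, hxy.2.2, hy, hxy.1, .nil, p, by
        simp only [SimpleGraph.Walk.length_cons, SimpleGraph.Walk.length_nil]; omega⟩

lemma Conn.reach_insert {R : Finset V} (hR : Conn G R) {a y v : V} (hy : y ∈ R) (hay : G.Adj a y)
    (hv : v ∈ R) : (res G (insert a R)).Reachable a v := by
  have h1 : (res G (insert a R)).Adj a y := ⟨hay, mem_insert_self _ _, mem_insert_of_mem hy⟩
  exact h1.reachable.trans ((hR.2 y hy v hv).mono (res_mono (subset_insert _ _)))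

/-- the ball of radius `r` in `G[R]` -/
noncomputable def ball (G : SimpleGraph V) (R : Finset V) (r : ℕ) (v : V) : Finset V := by
  classical exact R.filter (fun x => Near G R r v x)

lemma mem_ball {R : Finset V} {r : ℕ} {v x : V} : x ∈ ball G R r v ↔ x ∈ R ∧ Near G R r v x := by
  classical
  unfold ball
  rw [mem_filter]

lemma conn_ball {R : Finset V} {r : ℕ} {v : V} (hv : v ∈ R) : Conn G (ball G R r v) := by
  classical
  refine ⟨⟨v, mem_ball.2 ⟨hv, Near.refl _ _ _⟩⟩, ?_⟩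
  have key : ∀ u ∈ ball G R r v, (res G (ball G R r v)).Reachable v u := by
    intro u hu
    obtain ⟨w, hw⟩ := (mem_ball.1 hu).2
    obtain ⟨w', _⟩ := walk_in (Y := ball G R r v) w (by
      intro x hx
      rw [mem_ball]
      have h1 : (w.takeUntil x hx).length ≤ w.length := w.length_takeUntil_le hx
      exact ⟨reach_mem hv ⟨w.takeUntil x hx⟩, ⟨w.takeUntil x hx, by omega⟩⟩)
    exact ⟨w'⟩
  intro a ha b hb
  exact (key a ha).symm.trans (key b hb)

/-- a small connected set containing `Z` -/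
theorem exists_hub {t : ℕ} (ht : 2 ≤ t) (hf : IsEmpty (SimpleGraph.pathGraph t ↪g G))
    {R Z : Finset V} (hR : Conn G R) (hZ : Z ⊆ R) (hne : Z.Nonempty) :
    ∃ U : Finset V, U ⊆ R ∧ Z ⊆ U ∧ Conn G U ∧ U.card ≤ Z.card * (t - 1) := by
  classical
  obtain ⟨r, hr⟩ := hne
  have h1 : ∀ z ∈ Z, ∃ w : (res G R).Walk r z, w.length ≤ t - 2 := fun z hz =>
    near_of_free ht hf (hR.2 r (hZ hr) z (hZ hz))
  choose w hw using h1
  set U : Finset V := Z.attach.biUnion (fun z => (w z.1 z.2).support.toFinset) with hU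
  have hmem : ∀ z (hz : z ∈ Z), ∀ x ∈ (w z hz).support, x ∈ U := by
    intro z hz x hx
    rw [hU, mem_biUnion]
    exact ⟨⟨z, hz⟩, mem_attach _ _, by simpa using hx⟩
  have hrU : r ∈ U := hmem r hr r (SimpleGraph.Walk.start_mem_support _)
  refine ⟨U, ?_, ?_, ⟨⟨r, hrU⟩, ?_⟩, ?_⟩
  · intro x hx
    rw [hU, mem_biUnion] at hx
    obtain ⟨z, _, hx⟩ := hx
    rw [List.mem_toFinset] at hx
    exact reach_mem (hZ hr) ⟨(w z.1 z.2).takeUntil x hx⟩
  · intro z hz
    exact hmem z hz z (SimpleGraph.Walk.end_mem_support _)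
  · have key : ∀ x ∈ U, (res G U).Reachable r x := by
      intro x hx
      have hx' := hx
      rw [hU, mem_biUnion] at hx'
      obtain ⟨z, _, hx'⟩ := hx'
      rw [List.mem_toFinset] at hx'
      obtain ⟨w', _⟩ := walk_in (Y := U) ((w z.1 z.2).takeUntil x hx') (fun y hy =>
        hmem z.1 z.2 y ((w z.1 z.2).support_takeUntil_subset hx' hy))
      exact ⟨w'⟩
    intro a ha b hb
    exact (key a ha).symm.trans (key b hb)
  · rw [hU]
    refine (card_biUnion_le_card_mul _ _ (t - 1) ?_).trans (by rw [card_attach])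
    intro z _
    refine (List.toFinset_card_le _).trans ?_
    rw [SimpleGraph.Walk.length_support]
    have := hw z.1 z.2
    omega

/-- a vertex with a tail outside `R` lies in every set separating two far vertices -/
theorem bad_in_A {m : ℕ} (hm : 1 ≤ m) (hf : IsEmpty (SimpleGraph.pathGraph (2 * m + 2) ↪g G))
    {R A : Finset V} {a v1 v2 : V} (hR : Conn G R) (haR : a ∉ R) (hay : ∃ y ∈ R, G.Adj a y)
    (hT : Tail G m a R) (hv1 : v1 ∈ R) (hv2 : v2 ∈ R) (hA1 : Disjoint A (ball G R (m - 1) v1))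
    (hA2 : Disjoint A (ball G R (m - 1) v2))
    (hA : ∀ D : Finset V, Conn G D → (D ∩ ball G R (m - 1) v1).Nonempty →
      (D ∩ ball G R (m - 1) v2).Nonempty → (D ∩ A).Nonempty) : a ∈ A := by
  classical
  obtain ⟨y, hy, hay⟩ := hay
  have key : ∀ v ∈ R, ∃ x ∈ ball G R (m - 1) v, G.Adj x a := by
    intro v hv
    obtain ⟨p, hp⟩ := (tail_dist hm hf hT haR hv (hR.reach_insert hy hay hv)).symm
    obtain ⟨x, y', hx, hy', hyR, hxy, q, q', hq⟩ := exit hv haR p
    have h1 : y' = a := by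
      rw [mem_insert] at hy'
      tauto
    subst h1
    exact ⟨x, mem_ball.2 ⟨hx, q, by omega⟩, hxy⟩
  obtain ⟨x1, hx1, hxa1⟩ := key v1 hv1
  obtain ⟨x2, hx2, hxa2⟩ := key v2 hv2
  obtain ⟨z, hz⟩ := hA {x1, a, x2} (by
      refine ⟨⟨a, by simp⟩, ?_⟩
      have h3 : ∀ u ∈ ({x1, a, x2} : Finset V), (res G {x1, a, x2}).Reachable a u := by
        intro u hu
        simp only [mem_insert, mem_singleton] at hu
        rcases hu with rfl | rfl | rfl
        · exact SimpleGraph.Adj.reachable ⟨hxa1.symm, by simp, by simp⟩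
        · exact .refl _
        · exact SimpleGraph.Adj.reachable ⟨hxa2.symm, by simp, by simp⟩
      intro u hu v hv
      exact (h3 u hu).symm.trans (h3 v hv))
    ⟨x1, by rw [mem_inter]; exact ⟨by simp, hx1⟩⟩ ⟨x2, by rw [mem_inter]; exact ⟨by simp, hx2⟩⟩
  rw [mem_inter] at hz
  simp only [mem_insert, mem_singleton] at hz
  rcases hz with ⟨rfl | rfl | rfl, h⟩
  · exact absurd hx1 (disjoint_left.1 hA1 h)
  · exact h
  · exact absurd hx2 (disjoint_left.1 hA2 h)

/-- pairwise touching disjoint connected sets -/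
theorem good_count {k : ℕ} (htw : TW G k) (F : Finset ℕ) (B : ℕ → Finset V) {C : Finset V}
    (hC : Conn G C) (hB : ∀ i ∈ F, Conn G (B i)) (hBC : ∀ i ∈ F, Disjoint (B i) C)
    (hT : ∀ i ∈ F, Touch G (B i) C)
    (hp : ∀ i ∈ F, ∀ j ∈ F, i < j → Disjoint (B i) (B j) ∧ Touch G (B i) (B j)) : F.card ≤ k := by
  classical
  obtain ⟨bags, hne, hcard, hv, he, helly, _⟩ := htw
  have touch_bag : ∀ X Y : Finset V, Touch G X Y →
      ∃ b ∈ bags, (b ∩ X).Nonempty ∧ (b ∩ Y).Nonempty := by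
    rintro X Y ⟨x, hx, y, hy, hxy⟩
    obtain ⟨b, hb, h1, h2⟩ := he x y hxy
    exact ⟨b, hb, ⟨x, mem_inter.2 ⟨h1, hx⟩⟩, ⟨y, mem_inter.2 ⟨h2, hy⟩⟩⟩
  have self_bag : ∀ X : Finset V, X.Nonempty → ∃ b ∈ bags, (b ∩ X).Nonempty := by
    rintro X ⟨x, hx⟩
    obtain ⟨b, hb, h1⟩ := hv x
    exact ⟨b, hb, ⟨x, mem_inter.2 ⟨h1, hx⟩⟩⟩
  obtain ⟨b, hb, hmeet⟩ := helly (insert C (F.image B)) (by
      intro D hD
      rw [mem_insert, mem_image] at hD
      rcases hD with rfl | ⟨i, hi, rfl⟩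
      · exact hC
      · exact hB i hi) (by
      intro D hD D' hD'
      rw [mem_insert, mem_image] at hD hD'
      rcases hD with rfl | ⟨i, hi, rfl⟩ <;> rcases hD' with rfl | ⟨j, hj, rfl⟩
      · obtain ⟨b, hb, h⟩ := self_bag _ hC.1
        exact ⟨b, hb, h, h⟩
      · obtain ⟨b, hb, h1, h2⟩ := touch_bag _ _ (hT j hj)
        exact ⟨b, hb, h2, h1⟩
      · exact touch_bag _ _ (hT i hi)
      · rcases lt_trichotomy i j with h | h | h
        · exact touch_bag _ _ (hp i hi j hj h).2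
        · subst h
          obtain ⟨b, hb, h⟩ := self_bag _ (hB i hi).1
          exact ⟨b, hb, h, h⟩
        · obtain ⟨b, hb, h1, h2⟩ := touch_bag _ _ (hp j hj i hi h).2
          exact ⟨b, hb, h2, h1⟩)
  have h1 : ∀ i ∈ F, (b ∩ B i).Nonempty := fun i hi =>
    hmeet _ (mem_insert_of_mem (mem_image_of_mem _ hi))
  obtain ⟨c, hc⟩ := hmeet C (mem_insert_self _ _)
  rw [mem_inter] at hc
  choose f hf using h1
  have h2 : (F.attach.image (fun i => f i.1 i.2)).card = F.card := by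
    rw [card_image_of_injective, card_attach]
    rintro ⟨i, hi⟩ ⟨j, hj⟩ hij
    simp only at hij
    have h3 := (mem_inter.1 (hf i hi)).2
    have h4 := (mem_inter.1 (hf j hj)).2
    rw [← hij] at h4
    rcases lt_trichotomy i j with h | h | h
    · exact absurd h4 (disjoint_left.1 (hp i hi j hj h).1 h3)
    · exact Subtype.ext h
    · exact absurd h3 (disjoint_left.1 (hp j hj i hi h).1 h4)
  have h3 : insert c (F.attach.image (fun i => f i.1 i.2)) ⊆ b := by
    intro x hx
    rw [mem_insert, mem_image] at hx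
    rcases hx with rfl | ⟨i, _, rfl⟩
    · exact hc.1
    · exact (mem_inter.1 (hf i.1 i.2)).1
  have h4 : c ∉ F.attach.image (fun i => f i.1 i.2) := by
    rw [mem_image]
    rintro ⟨i, _, h⟩
    have h5 := (mem_inter.1 (hf i.1 i.2)).2
    rw [h] at h5
    exact disjoint_left.1 (hBC i.1 i.2) h5 hc.2
  have h5 := card_le_card h3
  rw [card_insert_of_notMem h4, h2] at h5
  have := hcard b hb
  omega

end

end Pool.Agent.H20.Tpf
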