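import Pool.Agent.H20.Tpf.Defs

/-! # Counting decreasing chains (helper944) -/

set_option autoImplicit false

namespace Pool.Agent.H20.Tpf
open Finset

theorem reach_mono_left {E : ℕ → ℕ → Prop} (hmono : ∀ i j j', i < j → j ≤ j' → E i j' → E i j) :
    ∀ (s j1 w i : ℕ), Reach E s j1 i → i < w → w ≤ j1 → Reach E s w i := by
  intro s
  induction s with
  | zero => intro j1 w i h _ _; exact h
  | succ s ih =>
    intro j1 w i h hi hw
    rcases h with ⟨h1, h2⟩ | ⟨j', h1, h2, h3, h4⟩
    · exact Or.inl ⟨hi, hmono i w j1 hi hw h2⟩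
    · by_cases hj : j' < w
      · exact Or.inr ⟨j', h1, hj, hmono j' w j1 hj hw h3, h4⟩
      · have h5 := ih j' w i h4 hi (not_lt.1 hj)
        -- Reach s w i → Reach (s+1) w i
        have hlift : ∀ (s a b : ℕ), Reach E s a b → Reach E (s + 1) a b := by
          intro s
          induction s with
          | zero => intro a b h; exact h.elim
          | succ s ih2 =>
            intro a b h
            rcases h with h | ⟨c, c1, c2, c3, c4⟩
            · exact Or.inl h
            · exact Or.inr ⟨c, c1, c2, c3, ih2 c b c4⟩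
        exact hlift s w i h5

/-- T1 (abstract counting lemma, like the bound `C(k+r,r)` for weak colouring numbers). -/
theorem count_reach {E : ℕ → ℕ → Prop} (hmono : ∀ i j j', i < j → j ≤ j' → E i j' → E i j) :
    ∀ (r K lo j : ℕ), (∀ j', lo < j' → j' ≤ j → {i | lo ≤ i ∧ i < j' ∧ E i j'}.ncard ≤ K) →
      {i | lo ≤ i ∧ i < j ∧ Reach E r j i}.ncard + 1 ≤ (K + r).choose r := by
  classical
  intro r
  induction r with
  | zero =>
    intro K lo j _
    have : {i | lo ≤ i ∧ i < j ∧ Reach E 0 j i} = ∅ := by
      ext i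
      simp [Reach]
    rw [this]
    simp
  | succ r ihr =>
    intro K
    induction K with
    | zero =>
      intro lo j h
      have hempty : {i | lo ≤ i ∧ i < j ∧ Reach E (r + 1) j i} = ∅ := by
        rw [Set.eq_empty_iff_forall_notMem]
        rintro i ⟨h1, h2, h3⟩
        have hfin : {i | lo ≤ i ∧ i < j ∧ E i j}.Finite := (Set.finite_Iio j).subset fun x hx => hx.2.1
        have h4 := h j (by omega) le_rfl
        have h5 : {i | lo ≤ i ∧ i < j ∧ E i j} = ∅ := by
          rw [← Set.ncard_eq_zero hfin]
          omega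
        rcases h3 with ⟨h3, h6⟩ | ⟨j', h6, h7, h8, _⟩
        · have : i ∈ {i | lo ≤ i ∧ i < j ∧ E i j} := ⟨h1, h2, h6⟩
          rw [h5] at this
          exact this
        · have : j' ∈ {i | lo ≤ i ∧ i < j ∧ E i j} := ⟨by omega, h7, h8⟩
          rw [h5] at this
          exact this
      rw [hempty]
      simp
    | succ K ihK =>
      intro lo j h
      by_cases hA : ∃ i, lo ≤ i ∧ i < j ∧ E i j
      · obtain ⟨w, ⟨hw1, hw2, hw3⟩, hwmin⟩ : ∃ w, (lo ≤ w ∧ w < j ∧ E w j) ∧
            ∀ i, (lo ≤ i ∧ i < j ∧ E i j) → w ≤ i :=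
          ⟨Nat.find hA, Nat.find_spec hA, fun i hi => Nat.find_min' hA hi⟩
        have hB := ihr (K + 1) lo w (fun j' h1 h2 => h j' h1 (by omega))
        have hC := ihK (w + 1) j (by
          intro j' h1 h2
          have hfin : {i | lo ≤ i ∧ i < j' ∧ E i j'}.Finite :=
            (Set.finite_Iio j').subset fun x hx => hx.2.1
          have h3 := h j' (by omega) h2
          have h4 : insert w {i | w + 1 ≤ i ∧ i < j' ∧ E i j'} ⊆ {i | lo ≤ i ∧ i < j' ∧ E i j'} := by
            rintro x (rfl | ⟨x1, x2, x3⟩)
            · exact ⟨hw1, by omega, hmono x j' j (by omega) h2 hw3⟩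
            · exact ⟨by omega, x2, x3⟩
          have hfin2 : {i | w + 1 ≤ i ∧ i < j' ∧ E i j'}.Finite :=
            (Set.finite_Iio j').subset fun x hx => hx.2.1
          have h5 := Set.ncard_le_ncard h4 hfin
          rw [Set.ncard_insert_of_notMem (by rintro ⟨x1, _⟩; omega) hfin2] at h5
          omega)
        have hfB : {i | lo ≤ i ∧ i < w ∧ Reach E r w i}.Finite :=
          (Set.finite_Iio w).subset fun x hx => hx.2.1
        have hfC : {i | w + 1 ≤ i ∧ i < j ∧ Reach E (r + 1) j i}.Finite :=
          (Set.finite_Iio j).subset fun x hx => hx.2.1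
        have hsub : {i | lo ≤ i ∧ i < j ∧ Reach E (r + 1) j i} ⊆
            insert w ({i | lo ≤ i ∧ i < w ∧ Reach E r w i} ∪
              {i | w + 1 ≤ i ∧ i < j ∧ Reach E (r + 1) j i}) := by
          rintro i ⟨h1, h2, h3⟩
          rcases lt_trichotomy i w with hi | hi | hi
          · right
            left
            refine ⟨h1, hi, ?_⟩
            rcases h3 with ⟨_, h4⟩ | ⟨j', h4, h5, h6, h7⟩
            · have := hwmin i ⟨h1, h2, h4⟩
              omega
            · have := hwmin j' ⟨by omega, h5, h6⟩
              exact reach_mono_left hmono r j' w i h7 hi this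
          · left
            exact hi
          · right
            right
            exact ⟨hi, h2, h3⟩
        have h6 := Set.ncard_le_ncard hsub ((hfB.union hfC).insert w)
        have h7 := Set.ncard_insert_le w ({i | lo ≤ i ∧ i < w ∧ Reach E r w i} ∪
              {i | w + 1 ≤ i ∧ i < j ∧ Reach E (r + 1) j i})
        have h8 := Set.ncard_union_le {i | lo ≤ i ∧ i < w ∧ Reach E r w i}
              {i | w + 1 ≤ i ∧ i < j ∧ Reach E (r + 1) j i}
        have h9 : (K + 1 + (r + 1)).choose (r + 1) = (K + 1 + r).choose r + (K + (r + 1)).choose (r + 1) := by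
          have : K + 1 + (r + 1) = (K + 1 + r) + 1 := by ring
          rw [this, Nat.choose_succ_succ]
          congr 2
          ring
        rw [h9]
        omega
      · have hempty : {i | lo ≤ i ∧ i < j ∧ Reach E (r + 1) j i} = ∅ := by
          rw [Set.eq_empty_iff_forall_notMem]
          rintro i ⟨h1, h2, h3⟩
          rcases h3 with ⟨h3, h6⟩ | ⟨j', h6, h7, h8, _⟩
          · exact hA ⟨i, h1, h2, h6⟩
          · exact hA ⟨j', by omega, h7, h8⟩
        rw [hempty]
        have : 0 < (K + 1 + (r + 1)).choose (r + 1) := Nat.choose_pos (by omega)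
        simp only [Set.ncard_empty]
        omega

end Pool.Agent.H20.Tpf
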