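import Mathlib

/-!
# Treedepth of `P_t`-free graphs of bounded treewidth: definitions

Plan: `h(k,t) = Θ(k^⌊(t-1)/2⌋)`.
-/

set_option autoImplicit false

namespace Pool.Agent.H20.Tpf

open Finset

section
variable {V : Type} [Fintype V] [DecidableEq V]

/-- the graph `G` restricted to `X` (the vertices outside `X` are isolated) -/
def res (G : SimpleGraph V) (X : Finset V) : SimpleGraph V where
  Adj a b := G.Adj a b ∧ a ∈ X ∧ b ∈ X
  symm := ⟨fun _ _ h => ⟨h.1.symm, h.2.2, h.2.1⟩⟩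
  loopless := ⟨fun _ h => G.loopless.irrefl _ h.1⟩

/-- there is a walk of length at most `r` inside `X` -/
def Near (G : SimpleGraph V) (X : Finset V) (r : ℕ) (u v : V) : Prop :=
  ∃ w : (res G X).Walk u v, w.length ≤ r

/-- `X` is nonempty and connected -/
def Conn (G : SimpleGraph V) (X : Finset V) : Prop :=
  X.Nonempty ∧ ∀ u ∈ X, ∀ v ∈ X, (res G X).Reachable u v

/-- there is an edge between `A` and `B` -/
def Touch (G : SimpleGraph V) (A B : Finset V) : Prop := ∃ x ∈ A, ∃ y ∈ B, G.Adj x y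

/-- `G[X]` has treedepth at most `d` (recursive form) -/
inductive TD (G : SimpleGraph V) : Finset V → ℕ → Prop
  | empty (d : ℕ) : TD G ∅ d
  | del {X : Finset V} {d : ℕ} (a : V) (ha : a ∈ X) : TD G (X.erase a) d → TD G X (d + 1)
  | union {X Y : Finset V} {d : ℕ} : Disjoint X Y → ¬ Touch G X Y → TD G X d → TD G Y d →
      TD G (X ∪ Y) d

/-- the vertices of `S` with a neighbour in `C` -/
noncomputable def nb (G : SimpleGraph V) (S C : Finset V) : Finset V := by
  classical exact S.filter (fun a => ∃ y ∈ C, G.Adj a y)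

end

/-- `G` has a tree decomposition of width at most `k` -/
def HasTW {V : Type} (G : SimpleGraph V) (k : ℕ) : Prop :=
  ∃ (n : ℕ) (T : SimpleGraph (Fin n)) (B : Fin n → Finset V), T.IsTree ∧ (∀ v : V, ∃ t, v ∈ B t) ∧
    (∀ u v : V, G.Adj u v → ∃ t, u ∈ B t ∧ v ∈ B t) ∧
    (∀ v : V, (T.induce {t : Fin n | v ∈ B t}).Connected) ∧ ∀ t, (B t).card ≤ k + 1

/-- `le` is the ancestor relation of a rooted forest on `V` such that adjacent vertices of `G` are
comparable -/
def IsForestOrder {V : Type} (G : SimpleGraph V) (le : V → V → Prop) : Prop :=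
  (∀ a, le a a) ∧ (∀ a b c, le a b → le b c → le a c) ∧ (∀ a b, le a b → le b a → a = b) ∧
    (∀ a b c, le a c → le b c → le a b ∨ le b a) ∧ ∀ a b, G.Adj a b → le a b ∨ le b a

/-- the consequences of a tree decomposition of width at most `k` which we use -/
def TW {V : Type} [Fintype V] [DecidableEq V] (G : SimpleGraph V) (k : ℕ) : Prop :=
  ∃ bags : Finset (Finset V), bags.Nonempty ∧ (∀ b ∈ bags, b.card ≤ k + 1) ∧
    (∀ v, ∃ b ∈ bags, v ∈ b) ∧ (∀ u v, G.Adj u v → ∃ b ∈ bags, u ∈ b ∧ v ∈ b) ∧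
    (∀ F : Finset (Finset V), (∀ C ∈ F, Conn G C) →
      (∀ C ∈ F, ∀ C' ∈ F, ∃ b ∈ bags, (b ∩ C).Nonempty ∧ (b ∩ C').Nonempty) →
      ∃ b ∈ bags, ∀ C ∈ F, (b ∩ C).Nonempty) ∧
    (∀ C C' : Finset V, Conn G C → Conn G C' →
      (∀ b ∈ bags, ¬ ((b ∩ C).Nonempty ∧ (b ∩ C').Nonempty)) →
      ∃ A : Finset V, A.card ≤ k + 1 ∧ Disjoint A C ∧ Disjoint A C' ∧
        ∀ D : Finset V, Conn G D → (D ∩ C).Nonempty → (D ∩ C').Nonempty → (D ∩ A).Nonempty)

/-- decreasing chains: `i` can be reached from `j` by at most `r` steps -/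
def Reach (E : ℕ → ℕ → Prop) : ℕ → ℕ → ℕ → Prop
  | 0, _, _ => False
  | r + 1, j, i => (i < j ∧ E i j) ∨ ∃ j', i < j' ∧ j' < j ∧ E j' j ∧ Reach E r j' i

/-- attach `N` copies of `D` to every vertex of `H`, each copy complete to its vertex -/
def Att {α β : Type} (H : SimpleGraph α) (N : ℕ) (D : SimpleGraph β) :
    SimpleGraph (α ⊕ (α × Fin N × β)) where
  Adj x y := match x, y with
    | .inl a, .inl b => H.Adj a b
    | .inl a, .inr p => a = p.1
    | .inr p, .inl a => a = p.1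
    | .inr p, .inr q => p.1 = q.1 ∧ p.2.1 = q.2.1 ∧ D.Adj p.2.2 q.2.2
  symm := ⟨by
    rintro (a | p) (b | q) h
    · exact h.symm
    · exact h
    · exact h
    · exact ⟨h.1.symm, h.2.1.symm, h.2.2.symm⟩⟩
  loopless := ⟨by
    rintro (a | p) h
    · exact H.loopless.irrefl _ h
    · exact D.loopless.irrefl _ h.2.2⟩

end Pool.Agent.H20.Tpf
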