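import Pool.Agent.H20.Tpf.Defs

/-! # Distances inside vertex sets of a graph without long induced paths -/

set_option autoImplicit false
set_option linter.unusedSectionVars false
set_option linter.unusedVariables false

namespace Pool.Agent.H20.Tpf
open Finset

section
variable {V : Type} [Fintype V] [DecidableEq V] {G : SimpleGraph V}

lemma res_mono {X Y : Finset V} (h : X ⊆ Y) : res G X ≤ res G Y :=
  fun _ _ hab => ⟨hab.1, h hab.2.1, h hab.2.2⟩

lemma Near.mono {X Y : Finset V} {r s : ℕ} {u v : V} (h : Near G X r u v) (hXY : X ⊆ Y)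
    (hrs : r ≤ s) : Near G Y s u v := by
  obtain ⟨w, hw⟩ := h
  exact ⟨w.mapLe (res_mono hXY), by simpa using hw.trans hrs⟩

lemma Near.symm {X : Finset V} {r : ℕ} {u v : V} (h : Near G X r u v) : Near G X r v u := by
  obtain ⟨w, hw⟩ := h
  exact ⟨w.reverse, by simpa using hw⟩

lemma Near.trans {X : Finset V} {r s : ℕ} {u v w : V} (h : Near G X r u v) (h' : Near G X s v w) :
    Near G X (r + s) u w := by
  obtain ⟨p, hp⟩ := h
  obtain ⟨q, hq⟩ := h'
  exact ⟨p.append q, by rw [SimpleGraph.Walk.length_append]; omega⟩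

lemma Near.reach {X : Finset V} {r : ℕ} {u v : V} (h : Near G X r u v) :
    (res G X).Reachable u v := by
  obtain ⟨w, _⟩ := h
  exact w.reachable

lemma Near.refl (X : Finset V) (r : ℕ) (u : V) : Near G X r u u := ⟨.nil, by simp⟩

lemma near_of_adj {X : Finset V} {u v : V} (h : G.Adj u v) (hu : u ∈ X) (hv : v ∈ X) :
    Near G X 1 u v := ⟨.cons (show (res G X).Adj u v from ⟨h, hu, hv⟩) .nil, by simp⟩

/-- a walk which starts in `X` stays in `X` -/
lemma reach_mem {X : Finset V} {u v : V} (hu : u ∈ X) (h : (res G X).Reachable u v) : v ∈ X := by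
  obtain ⟨w⟩ := h
  induction w with
  | nil => exact hu
  | cons hab _ ih => exact ih hab.2.2

/-- shortest walks are induced paths -/
theorem near_of_free {t : ℕ} (ht : 2 ≤ t) (hf : IsEmpty (SimpleGraph.pathGraph t ↪g G))
    {X : Finset V} {u v : V} (hr : (res G X).Reachable u v) : Near G X (t - 2) u v := by
  classical
  obtain ⟨w, hw⟩ := hr.exists_walk_length_eq_dist
  refine ⟨w, ?_⟩
  by_contra hcon
  push Not at hcon
  have hlen : t - 1 ≤ w.length := by omega
  have hmem : ∀ i ≤ w.length, w.getVert i ∈ X := by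
    intro i hi
    rcases Nat.eq_zero_or_pos i with h0 | h0
    · have h1 := w.adj_getVert_succ (i := 0) (by omega)
      rw [h0]
      exact h1.2.1
    · have h1 := w.adj_getVert_succ (i := i - 1) (by omega)
      rw [show i - 1 + 1 = i by omega] at h1
      exact h1.2.2
  -- distance between two vertices of the walk
  have hdist : ∀ i j, i ≤ j → j ≤ w.length → ∀ p : (res G X).Walk (w.getVert i) (w.getVert j),
      j - i ≤ p.length := by
    intro i j hij hj p
    have h1 : (res G X).dist u v ≤ ((w.take i).append (p.append (w.drop j))).length :=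
      SimpleGraph.dist_le _
    rw [SimpleGraph.Walk.length_append, SimpleGraph.Walk.length_append,
      SimpleGraph.Walk.take_length, SimpleGraph.Walk.drop_length] at h1
    rw [← hw] at h1
    have : min i w.length = i := min_eq_left (by omega)
    omega
  have hinj : ∀ i j, i < j → j ≤ w.length → w.getVert i ≠ w.getVert j := by
    intro i j hij hj heq
    have := hdist i j hij.le hj ((SimpleGraph.Walk.nil : (res G X).Walk _ _).copy rfl heq)
    simp at this
    omega
  have hadj : ∀ i j, i < j → j ≤ w.length → (G.Adj (w.getVert i) (w.getVert j) ↔ j = i + 1) := by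
    intro i j hij hj
    constructor
    · intro h
      have h2 : (res G X).Adj (w.getVert i) (w.getVert j) := ⟨h, hmem i (by omega), hmem j hj⟩
      have := hdist i j hij.le hj (.cons h2 .nil)
      simp at this
      omega
    · rintro rfl
      exact (w.adj_getVert_succ (i := i) (by omega)).1
  refine hf.false ⟨⟨fun i => w.getVert i.val, ?_⟩, ?_⟩
  · intro i j hij
    change w.getVert i.val = w.getVert j.val at hij
    have hi := i.isLt
    have hj := j.isLt
    rcases lt_trichotomy i.val j.val with h | h | h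
    · exact absurd hij (hinj _ _ h (by omega))
    · exact Fin.ext h
    · exact absurd hij.symm (hinj _ _ h (by omega))
  · intro i j
    have hi := i.isLt
    have hj := j.isLt
    change G.Adj (w.getVert i.val) (w.getVert j.val) ↔ _
    rw [SimpleGraph.pathGraph_adj]
    rcases lt_trichotomy i.val j.val with h | h | h
    · rw [hadj _ _ h (by omega)]
      omega
    · rw [h]
      simp
    · rw [G.adj_comm, hadj _ _ h (by omega)]
      omega

/-- walks leaving `Y` through the vertex `a` only -/
theorem cut {Y X : Finset V} {a u w : V} (hYX : Y ⊆ X) (ha : a ∉ Y) (hu : u ∈ Y) (hw : w ∉ Y)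
    (hexit : ∀ x ∈ Y, ∀ y ∈ X, y ∉ Y → G.Adj x y → y = a) (p : (res G X).Walk u w) :
    ∃ (q : (res G (insert a Y)).Walk u a) (q' : (res G X).Walk a w),
      q.length + q'.length ≤ p.length := by
  induction p with
  | nil => exact absurd hu hw
  | @cons x y z hxy p ih =>
    by_cases hy : y ∈ Y
    · obtain ⟨q, q', hq⟩ := ih hy hw
      refine ⟨.cons (show (res G (insert a Y)).Adj x y from
        ⟨hxy.1, mem_insert_of_mem hu, mem_insert_of_mem hy⟩) q, q', ?_⟩
      simp only [SimpleGraph.Walk.length_cons]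
      omega
    · have hya : y = a := hexit x hu y hxy.2.2 hy hxy.1
      subst hya
      refine ⟨.cons (show (res G (insert y Y)).Adj x y from
        ⟨hxy.1, mem_insert_of_mem hu, mem_insert_self _ _⟩) .nil, p, ?_⟩
      simp only [SimpleGraph.Walk.length_cons, SimpleGraph.Walk.length_nil]
      omega

/-- `a` is the end of an induced path with at least `m` further vertices, none of them in or adjacent
to `R` -/
def Tail (G : SimpleGraph V) (m : ℕ) (a : V) (R : Finset V) : Prop :=
  ∃ (C : Finset V) (z : V), z ∈ C ∧ a ∉ C ∧ Disjoint C R ∧ ¬ Touch G C R ∧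
    (res G (insert a C)).Reachable a z ∧ ¬ Near G (insert a C) (m - 1) a z

lemma Tail.mono {m : ℕ} {a : V} {R R' : Finset V} (h : Tail G m a R) (hR : R' ⊆ R) :
    Tail G m a R' := by
  obtain ⟨C, z, h1, h2, h3, h4, h5, h6⟩ := h
  refine ⟨C, z, h1, h2, h3.mono_right hR, ?_, h5, h6⟩
  rintro ⟨x, hx, y, hy, hxy⟩
  exact h4 ⟨x, hx, y, hR hy, hxy⟩

theorem tail_dist {m : ℕ} (hm : 1 ≤ m) (hf : IsEmpty (SimpleGraph.pathGraph (2 * m + 2) ↪g G))
    {a : V} {R : Finset V} (hT : Tail G m a R) (haR : a ∉ R) {v : V} (hv : v ∈ R)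
    (hr : (res G (insert a R)).Reachable a v) : Near G (insert a R) m a v := by
  classical
  obtain ⟨C, z, hzC, haC, hCR, hCt, hcz, hfar⟩ := hT
  set X := insert a (C ∪ R) with hX
  have h1 : (res G X).Reachable v z := by
    have h2 : (res G X).Reachable v a := (hr.symm).mono (res_mono (by
      intro x hx
      rw [mem_insert] at hx
      rw [hX, mem_insert, mem_union]
      tauto))
    have h3 : (res G X).Reachable a z := hcz.mono (res_mono (by
      intro x hx
      rw [mem_insert] at hx
      rw [hX, mem_insert, mem_union]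
      tauto))
    exact h2.trans h3
  obtain ⟨p, hp⟩ := near_of_free (by omega) hf h1
  have hzR : z ∉ R := fun h => (disjoint_left.1 hCR hzC) h
  obtain ⟨q, q', hq⟩ := cut (Y := R) (X := X) (a := a) (fun x hx => by
      rw [hX, mem_insert, mem_union]; tauto) haR hv hzR (by
      intro x hx y hy hyR hxy
      rw [hX, mem_insert, mem_union] at hy
      rcases hy with h | h | h
      · exact h
      · exact absurd ⟨y, h, x, hx, hxy.symm⟩ hCt
      · exact absurd h hyR) p
  obtain ⟨q2, q3, hq2⟩ := cut (Y := C) (X := X) (a := a) (fun x hx => by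
      rw [hX, mem_insert, mem_union]; tauto) haC hzC haC (by
      intro x hx y hy hyC hxy
      rw [hX, mem_insert, mem_union] at hy
      rcases hy with h | h | h
      · exact h
      · exact absurd h hyC
      · exact absurd ⟨x, hx, y, h, hxy⟩ hCt) q'.reverse
  have h4 : m ≤ q2.length := by
    by_contra hcon
    push Not at hcon
    exact hfar ⟨q2.reverse, by rw [SimpleGraph.Walk.length_reverse]; omega⟩
  refine ⟨q.reverse, ?_⟩
  rw [SimpleGraph.Walk.length_reverse] at *
  omega

/-- two deep components cannot have incomparable neighbourhoods -/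
theorem nested {m : ℕ} (hm : 1 ≤ m) (hf : IsEmpty (SimpleGraph.pathGraph (2 * m + 2) ↪g G))
    {R1 R2 C : Finset V} {a b v1 v2 : V} (hab : a ≠ b)
    (h12 : Disjoint R1 R2) (h1C : Disjoint R1 C) (h2C : Disjoint R2 C)
    (t12 : ¬ Touch G R1 R2) (t1C : ¬ Touch G R1 C) (t2C : ¬ Touch G R2 C)
    (ha1 : a ∉ R1) (ha2 : a ∉ R2) (haC : a ∉ C) (hb1 : b ∉ R1) (hb2 : b ∉ R2) (hbC : b ∉ C)
    (hv1 : v1 ∈ R1) (hv2 : v2 ∈ R2)
    (hr1 : (res G (insert a R1)).Reachable v1 a) (hr2 : (res G (insert b R2)).Reachable v2 b)
    (hrC : (res G (insert a (insert b C))).Reachable a b)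
    (hb : ∀ x ∈ R1, ¬ G.Adj x b) (ha : ∀ x ∈ R2, ¬ G.Adj x a)
    (hd1 : ¬ Near G (insert a R1) (m - 1) v1 a) (hd2 : ¬ Near G (insert b R2) (m - 1) v2 b) :
    False := by
  classical
  set X := insert a (insert b (C ∪ (R1 ∪ R2))) with hX
  have hmemX : ∀ x, x ∈ X ↔ x = a ∨ x = b ∨ x ∈ C ∨ x ∈ R1 ∨ x ∈ R2 := by
    intro x
    rw [hX]
    simp only [mem_insert, mem_union]
  have h1 : (res G X).Reachable v1 v2 := by
    refine ((hr1.mono (res_mono ?_)).trans (hrC.mono (res_mono ?_))).trans
      (hr2.symm.mono (res_mono ?_))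
    · intro x hx
      rw [mem_insert] at hx
      rw [hmemX]
      tauto
    · intro x hx
      rw [mem_insert, mem_insert] at hx
      rw [hmemX]
      tauto
    · intro x hx
      rw [mem_insert] at hx
      rw [hmemX]
      tauto
  obtain ⟨p, hp⟩ := near_of_free (by omega) hf h1
  obtain ⟨q, q', hq⟩ := cut (Y := R1) (X := X) (a := a) (fun x hx => by
      rw [hmemX]; tauto) ha1 hv1 (fun h => disjoint_left.1 h12 h hv2) (by
      intro x hx y hy hyR hxy
      rw [hmemX] at hy
      rcases hy with h | h | h | h | h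
      · exact h
      · exact absurd (h ▸ hxy) (hb x hx)
      · exact absurd ⟨x, hx, y, h, hxy⟩ t1C
      · exact absurd h hyR
      · exact absurd ⟨x, hx, y, h, hxy⟩ t12) p
  obtain ⟨q2, q3, hq2⟩ := cut (Y := R2) (X := X) (a := b) (fun x hx => by
      rw [hmemX]; tauto) hb2 hv2 ha2 (by
      intro x hx y hy hyR hxy
      rw [hmemX] at hy
      rcases hy with h | h | h | h | h
      · exact absurd (h ▸ hxy) (ha x hx)
      · exact h
      · exact absurd ⟨x, hx, y, h, hxy⟩ t2C
      · exact absurd ⟨y, h, x, hx, hxy.symm⟩ t12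
      · exact absurd h hyR) q'.reverse
  have h4 : m ≤ q.length := by
    by_contra hcon
    push Not at hcon
    exact hd1 ⟨q, by omega⟩
  have h5 : m ≤ q2.length := by
    by_contra hcon
    push Not at hcon
    exact hd2 ⟨q2, by omega⟩
  have h6 : 1 ≤ q3.length := by
    by_contra hcon
    push Not at hcon
    have : q3.length = 0 := by omega
    exact hab (SimpleGraph.Walk.eq_of_length_eq_zero this).symm
  rw [SimpleGraph.Walk.length_reverse] at hq2
  omega

end

end Pool.Agent.H20.Tpf
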