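import Pool.Agent.H20.Tpf.Qual

/-! # Extending a history -/

set_option autoImplicit false
set_option linter.unusedSectionVars false
set_option linter.unusedVariables false

namespace Pool.Agent.H20.Tpf
open Finset

section
variable {V : Type} [Fintype V] [DecidableEq V] {G : SimpleGraph V}

/-- the good blobs touching the last region -/
theorem good_deg {m k cg N : ℕ} {B Rt : ℕ → Finset V} {gd : ℕ → Prop} {uid : ℕ → ℕ}
    (htw : TW G k) (Q : Qual G m k cg N B Rt gd uid) (hC : Conn G (Rt N))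
    (hsub : ∀ j ≤ N, Rt N ⊆ Rt j) (hd : ∀ i j, i < j → j < N → Disjoint (B i) (B j))
    (hdR : ∀ i < N, Disjoint (B i) (Rt N)) :
    {i | i < N ∧ gd i ∧ Touch G (B i) (Rt N)}.ncard ≤ k := by
  classical
  have h2 : {i | i < N ∧ gd i ∧ Touch G (B i) (Rt N)} =
      ((range N).filter (fun i => gd i ∧ Touch G (B i) (Rt N)) : Set ℕ) := by
    ext i
    simp
  rw [h2, Set.ncard_coe_finset]
  have hm : ∀ i, i ∈ (range N).filter (fun i => gd i ∧ Touch G (B i) (Rt N)) →
      i < N ∧ gd i ∧ Touch G (B i) (Rt N) := by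
    intro i hi
    rwa [mem_filter, mem_range] at hi
  refine good_count htw _ B hC (fun i hi => Q.gconn i (hm i hi).1 (hm i hi).2.1)
    (fun i hi => hdR i (hm i hi).1) (fun i hi => (hm i hi).2.2) ?_
  intro i hi j hj hij
  have h3 := hm i hi
  have h4 := hm j hj
  exact ⟨hd i j hij h4.1, Q.gtouch i j hij h4.1 h3.2.1 h4.2.1
    (h3.2.2.mono (Subset.refl _) (hsub j h4.1.le))⟩

theorem deg_le {m k cg N : ℕ} {B Rt : ℕ → Finset V} {gd : ℕ → Prop} {uid : ℕ → ℕ}
    (htw : TW G k) (Q : Qual G m k cg N B Rt gd uid) (hC : Conn G (Rt N))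
    (hsub : ∀ j ≤ N, Rt N ⊆ Rt j) (hd : ∀ i j, i < j → j < N → Disjoint (B i) (B j))
    (hdR : ∀ i < N, Disjoint (B i) (Rt N)) :
    {i | i < N ∧ Touch G (B i) (Rt N)}.ncard ≤ 2 * k + 1 := by
  have h1 := good_deg htw Q hC hsub hd hdR
  have h2 := Q.bdeg
  have h3 : {i | i < N ∧ Touch G (B i) (Rt N)} ⊆ {i | i < N ∧ gd i ∧ Touch G (B i) (Rt N)} ∪
      {i | i < N ∧ ¬ gd i ∧ Touch G (B i) (Rt N)} := by
    rintro i ⟨h4, h5⟩
    by_cases h : gd i
    · exact Or.inl ⟨h4, h, h5⟩
    · exact Or.inr ⟨h4, h, h5⟩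
  have hf : ({i | i < N ∧ gd i ∧ Touch G (B i) (Rt N)} ∪
      {i | i < N ∧ ¬ gd i ∧ Touch G (B i) (Rt N)}).Finite :=
    (Set.finite_Iio N).subset (by
      rintro x (hx | hx)
      · exact hx.1
      · exact hx.1)
  have h4 := (Set.ncard_le_ncard h3 hf).trans (Set.ncard_union_le _ _)
  omega

lemma Hist.bb {K N : ℕ} {B Rt : ℕ → Finset V} (H : Hist G K N B Rt) :
    ∀ i j, i < j → j < N → Disjoint (B i) (B j) := fun i j hij hj =>
  (H.bdis i j hij hj.le).mono_right (H.bsub j hj)

theorem ext_good {m k cg N : ℕ} {B Rt : ℕ → Finset V} {gd : ℕ → Prop} {uid : ℕ → ℕ}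
    (htw : TW G k) (H : Hist G (2 * k + 1) N B Rt) (Q : Qual G m k cg N B Rt gd uid)
    {U C : Finset V} (hU : U ⊆ Rt N) (hUc : Conn G U) (hC : C ⊆ Rt N \ U) (hCc : Conn G C)
    (hsep : ∀ x ∈ Rt N \ U, ∀ y ∈ C, G.Adj x y → x ∈ C) (hcard : U.card ≤ cg)
    (hnear : ∀ v ∈ C, ∃ b ∈ U, Near G (Rt N) (m - 1) v b)
    (htouch : ∀ i < N, gd i → Touch G (B i) (Rt N) → Touch G (B i) U) :
    ∃ (N' : ℕ) (B' Rt' : ℕ → Finset V) (gd' : ℕ → Prop) (uid' : ℕ → ℕ),
      Hist G (2 * k + 1) N' B' Rt' ∧ Qual G m k cg N' B' Rt' gd' uid' ∧ Rt' N' = C ∧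
      cost N' B' = cost N B + U.card := by
  classical
  set B' : ℕ → Finset V := fun i => if i < N then B i else U with hB'
  set Rt' : ℕ → Finset V := fun i => if i ≤ N then Rt i else C with hRt'
  set gd' : ℕ → Prop := fun i => if i < N then gd i else True with hgd'
  have b1 : ∀ i < N, B' i = B i := fun i hi => if_pos hi
  have b2 : B' N = U := if_neg (by omega)
  have r1 : ∀ i ≤ N, Rt' i = Rt i := fun i hi => if_pos hi
  have r2 : Rt' (N + 1) = C := if_neg (by omega)
  have g1 : ∀ i < N, (gd' i ↔ gd i) := by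
    intro i hi
    rw [hgd']
    simp only
    rw [if_pos hi]
  have g2 : gd' N := by
    rw [hgd']
    simp
  have hCR : C ⊆ Rt N := hC.trans sdiff_subset
  have hCU : Disjoint U C := by
    rw [disjoint_right]
    intro x hx
    exact (mem_sdiff.1 (hC hx)).2
  have Q' : Qual G m k cg (N + 1) B' Rt' gd' uid := by
    refine ⟨?_, ?_, ?_, ?_, ?_, ?_, ?_, ?_, ?_, ?_⟩
    · intro i hi hg
      rcases Nat.lt_or_ge i N with h | h
      · rw [b1 i h]
        exact Q.gconn i h ((g1 i h).1 hg)
      · have : i = N := by omega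
        rw [this, b2]
        exact hUc
    · intro i j hij hj hgi hgj ht
      rw [b1 i (by omega), r1 j (by omega)] at ht
      rw [b1 i (by omega)]
      rcases Nat.lt_or_ge j N with h | h
      · rw [b1 j h]
        exact Q.gtouch i j hij h ((g1 i (by omega)).1 hgi) ((g1 j h).1 hgj) ht
      · have : j = N := by omega
        subst this
        rw [b2]
        exact htouch i hij ((g1 i hij).1 hgi) ht
    · intro i hi hg
      rcases Nat.lt_or_ge i N with h | h
      · rw [b1 i h]
        exact Q.gcard i h ((g1 i h).1 hg)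
      · have : i = N := by omega
        rw [this, b2]
        exact hcard
    · intro i hi hg v hv
      rw [r2] at hv
      rcases Nat.lt_or_ge i N with h | h
      · rw [b1 i h, r1 i h.le]
        exact Q.gnear i h ((g1 i h).1 hg) v (hCR hv)
      · have : i = N := by omega
        rw [this, b2, r1 N le_rfl]
        exact hnear v hv
    · intro i hi hg
      rcases Nat.lt_or_ge i N with h | h
      · rw [b1 i h]
        exact Q.bcard i h (fun h' => hg ((g1 i h).2 h'))
      · have : i = N := by omega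
        rw [this] at hg
        exact absurd g2 hg
    · intro i hi hg a ha ht
      rcases Nat.lt_or_ge i N with h | h
      · rw [b1 i h] at ha ht
        rw [r2] at ht ⊢
        exact (Q.btail i h (fun h' => hg ((g1 i h).2 h')) a ha
          (ht.mono (Subset.refl _) hCR)).mono hCR
      · have : i = N := by omega
        rw [this] at hg
        exact absurd g2 hg
    · intro i hi hg v hv
      rw [r2] at hv
      rcases Nat.lt_or_ge i N with h | h
      · rw [b1 i h, r1 i h.le]
        rcases Q.bnear i h (fun h' => hg ((g1 i h).2 h')) v (hCR hv) with h1 | ⟨i', h1, h2, h3, h4⟩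
        · exact Or.inl h1
        · right
          refine ⟨i', by omega, fun h' => h2 ((g1 i' h1).1 h'), h3, ?_⟩
          rw [b1 i' h1, r1 i' h1.le]
          exact h4
      · have : i = N := by omega
        rw [this] at hg
        exact absurd g2 hg
    · refine le_trans (Set.ncard_le_ncard ?_ ((Set.finite_Iio N).subset fun x hx => hx.1)) Q.bdeg
      rintro i ⟨h1, h2, h3⟩
      rcases Nat.lt_or_ge i N with h | h
      · rw [b1 i h, r2] at h3
        exact ⟨h, fun h' => h2 ((g1 i h).2 h'), h3.mono (Subset.refl _) hCR⟩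
      · have : i = N := by omega
        rw [this] at h2
        exact absurd g2 h2
    · intro u
      refine le_trans (Set.ncard_le_ncard ?_ ((Set.finite_Iio N).subset fun x hx => hx.1))
        (Q.ucard u)
      rintro i ⟨h1, h2, h3⟩
      rcases Nat.lt_or_ge i N with h | h
      · exact ⟨h, fun h' => h2 ((g1 i h).2 h'), h3⟩
      · have : i = N := by omega
        rw [this] at h2
        exact absurd g2 h2
    · intro i hi hg
      rcases Nat.lt_or_ge i N with h | h
      · exact Q.ulow i h (fun h' => hg ((g1 i h).2 h'))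
      · have : i = N := by omega
        rw [this] at hg
        exact absurd g2 hg
  have hH : Hist G (2 * k + 1) (N + 1) B' Rt' := by
    refine H.step b1 r1 (by rw [b2]; exact hU) (by rw [r2]; exact hCR) (by rw [b2, r2]; exact hCU)
      ?_ ?_
    · intro x hx y hy hxy
      rw [r2] at hy ⊢
      rw [b2]
      by_cases hxU : x ∈ U
      · exact Or.inr hxU
      · exact Or.inl (hsep x (mem_sdiff.2 ⟨hx, hxU⟩) y hy hxy)
    · refine deg_le htw Q' (by rw [r2]; exact hCc) ?_ ?_ ?_
      · intro j hj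
        rw [r2]
        rcases Nat.lt_or_ge N j with h | h
        · have : j = N + 1 := by omega
          rw [this, r2]
        · rw [r1 j h]
          exact hCR.trans (H.sub j N h le_rfl)
      · intro i j hij hj
        rw [b1 i (by omega)]
        rcases Nat.lt_or_ge j N with h | h
        · rw [b1 j h]
          exact H.bb i j hij h
        · have : j = N := by omega
          rw [this, b2]
          exact (H.bdis i N (by omega) le_rfl).mono_right hU
      · intro i hi
        rw [r2]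
        rcases Nat.lt_or_ge i N with h | h
        · rw [b1 i h]
          exact (H.bdis i N h le_rfl).mono_right hCR
        · have : i = N := by omega
          rw [this, b2]
          exact hCU
  refine ⟨N + 1, B', Rt', gd', uid, hH, Q', r2, ?_⟩
  rw [cost, sum_range_succ, b2, cost]
  congr 1
  exact sum_congr rfl (fun i hi => by rw [b1 i (mem_range.1 hi)])

theorem ext_bad {m k cg N : ℕ} {B Rt : ℕ → Finset V} {gd : ℕ → Prop} {uid : ℕ → ℕ}
    (H : Hist G (2 * k + 1) N B Rt) (Q : Qual G m k cg N B Rt gd uid)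
    {W C : Finset V} (hW : W ⊆ Rt N) (hC : C ⊆ Rt N \ W)
    (hsep : ∀ x ∈ Rt N \ W, ∀ y ∈ C, G.Adj x y → x ∈ C)
    (hdeg : {i | i < N ∧ Touch G (B i) (Rt N)}.ncard + W.card ≤ 2 * k + 1)
    (hbdeg : {i | i < N ∧ ¬ gd i ∧ Touch G (B i) (Rt N)}.ncard + W.card ≤ k + 1)
    (hT : ∀ a ∈ W, (∃ y ∈ C, G.Adj a y) → Tail G m a C)
    (hN : ∀ v ∈ C, (∀ a ∈ W, Near G (insert a C) m v a) ∨ ∃ a ∈ W, Near G (insert a C) (m - 1) v a) :
    ∃ (N' : ℕ) (B' Rt' : ℕ → Finset V) (gd' : ℕ → Prop) (uid' : ℕ → ℕ),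
      Hist G (2 * k + 1) N' B' Rt' ∧ Qual G m k cg N' B' Rt' gd' uid' ∧ Rt' N' = C ∧
      cost N' B' = cost N B + W.card := by
  classical
  obtain ⟨B', R1, b1, r1, b2, b3, r2, H1⟩ := H.dels W hW hdeg
  set M := N + W.card with hM
  set Rt' : ℕ → Finset V := fun i => if i < M then R1 i else C with hRt'
  have s1 : ∀ i < M, Rt' i = R1 i := fun i hi => if_pos hi
  have s2 : Rt' M = C := if_neg (by omega)
  have H2 : Hist G (2 * k + 1) M B' Rt' := by
    refine H1.shrink s1 ?_ ?_
    · rw [s2, r2]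
      exact hC
    · intro x hx y hy hxy
      rw [s2] at hy ⊢
      rw [r2] at hx
      exact hsep x hx y hy hxy
  have hCR : C ⊆ Rt N := hC.trans sdiff_subset
  have r3 : ∀ i < N, Rt' i = Rt i := fun i hi => by rw [s1 i (by omega), r1 i hi.le]
  have r4 : ∀ i, N ≤ i → i < M → ∃ a ∈ W, B' i = {a} ∧ insert a C ⊆ Rt' i := by
    intro i h1 h2
    obtain ⟨a, ha, h3, h4⟩ := b2 i h1 h2
    refine ⟨a, ha, h3, ?_⟩
    rw [s1 i h2]
    exact (insert_subset_insert _ hC).trans h4
  set gd' : ℕ → Prop := fun i => if i < N then gd i else False with hgd'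
  set uid' : ℕ → ℕ := fun i => if i < N then uid i else N with huid'
  have g1 : ∀ i < N, (gd' i ↔ gd i) := by
    intro i hi
    rw [hgd']
    simp only
    rw [if_pos hi]
  have g2 : ∀ i, N ≤ i → ¬ gd' i := by
    intro i hi
    rw [hgd']
    simp only
    rw [if_neg (by omega)]
    exact id
  have g3 : ∀ i, gd' i → i < N := by
    intro i hi
    by_contra h
    exact g2 i (by omega) hi
  have u1 : ∀ i < N, uid' i = uid i := fun i hi => if_pos hi
  have u2 : ∀ i, N ≤ i → uid' i = N := fun i hi => if_neg (by omega)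
  have hNM : N ≤ M := by omega
  refine ⟨M, B', Rt', gd', uid', H2, ⟨?_, ?_, ?_, ?_, ?_, ?_, ?_, ?_, ?_, ?_⟩, s2, ?_⟩
  · intro i hi hg
    rw [b1 i (g3 i hg)]
    exact Q.gconn i (g3 i hg) ((g1 i (g3 i hg)).1 hg)
  · intro i j hij hj hgi hgj ht
    have h1 := g3 i hgi
    have h2 := g3 j hgj
    rw [b1 i h1, r3 j h2] at ht
    rw [b1 i h1, b1 j h2]
    exact Q.gtouch i j hij h2 ((g1 i h1).1 hgi) ((g1 j h2).1 hgj) ht
  · intro i hi hg
    rw [b1 i (g3 i hg)]
    exact Q.gcard i (g3 i hg) ((g1 i (g3 i hg)).1 hg)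
  · intro i hi hg v hv
    rw [s2] at hv
    rw [b1 i (g3 i hg), r3 i (g3 i hg)]
    exact Q.gnear i (g3 i hg) ((g1 i (g3 i hg)).1 hg) v (hCR hv)
  · intro i hi hg
    rcases Nat.lt_or_ge i N with h | h
    · rw [b1 i h]
      exact Q.bcard i h (fun h' => hg ((g1 i h).2 h'))
    · obtain ⟨a, _, h3, _⟩ := r4 i h hi
      exact ⟨a, h3⟩
  · intro i hi hg a ha ht
    rcases Nat.lt_or_ge i N with h | h
    · rw [b1 i h] at ha ht
      rw [s2] at ht ⊢
      exact (Q.btail i h (fun h' => hg ((g1 i h).2 h')) a ha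
        (ht.mono (Subset.refl _) hCR)).mono hCR
    · obtain ⟨c, hc, h3, _⟩ := r4 i h hi
      rw [h3, mem_singleton] at ha
      subst ha
      rw [h3, s2] at ht
      rw [s2]
      refine hT a hc ?_
      obtain ⟨x, hx, y, hy, hxy⟩ := ht
      rw [mem_singleton] at hx
      subst hx
      exact ⟨y, hy, hxy⟩
  · intro i hi hg v hv
    rw [s2] at hv
    rcases Nat.lt_or_ge i N with h | h
    · rw [b1 i h, r3 i h]
      rcases Q.bnear i h (fun h' => hg ((g1 i h).2 h')) v (hCR hv) with h1 | ⟨i', h1, h2, h3, h4⟩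
      · exact Or.inl h1
      · right
        refine ⟨i', by omega, fun h' => h2 ((g1 i' h1).1 h'), ?_, ?_⟩
        · rw [u1 i h, u1 i' h1]
          exact h3
        · rw [b1 i' h1, r3 i' h1]
          exact h4
    · obtain ⟨c, hc, h3, h4⟩ := r4 i h hi
      rcases hN v hv with h5 | ⟨a, ha, h5⟩
      · left
        refine ⟨c, by rw [h3]; exact mem_singleton_self _, (h5 c hc).mono h4 le_rfl⟩
      · right
        obtain ⟨i', h6, h7, h8⟩ := b3 a ha
        obtain ⟨c', hc', h9, h10⟩ := r4 i' h6 h7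
        have : c' = a := by
          rw [h8] at h9
          exact (singleton_inj.1 h9).symm
        subst this
        refine ⟨i', h7, g2 i' h6, by rw [u2 i h, u2 i' h6], c', by rw [h8]; exact mem_singleton_self _,
          h5.mono h10 le_rfl⟩
  · have hsub : {i | i < M ∧ ¬ gd' i ∧ Touch G (B' i) (Rt' M)} ⊆
        {i | i < N ∧ ¬ gd i ∧ Touch G (B i) (Rt N)} ∪ (Finset.Ico N M : Finset ℕ) := by
      rintro i ⟨h1, h2, h3⟩
      rcases Nat.lt_or_ge i N with h | h
      · left
        rw [b1 i h, s2] at h3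
        exact ⟨h, fun h' => h2 ((g1 i h).2 h'), h3.mono (Subset.refl _) hCR⟩
      · right
        rw [coe_Ico]
        exact ⟨h, h1⟩
    have hfin : {i | i < N ∧ ¬ gd i ∧ Touch G (B i) (Rt N)}.Finite :=
      (Set.finite_Iio N).subset fun x hx => hx.1
    refine le_trans (Set.ncard_le_ncard hsub (hfin.union (finite_toSet _))) ?_
    refine le_trans (Set.ncard_union_le _ _) ?_
    rw [Set.ncard_coe_finset, Nat.card_Ico]
    omega
  · intro u
    by_cases hu : u = N
    · have hsub : {i | i < M ∧ ¬ gd' i ∧ uid' i = u} ⊆ (Finset.Ico N M : Finset ℕ) := by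
        rintro i ⟨h1, h2, h3⟩
        rw [coe_Ico]
        refine ⟨?_, h1⟩
        by_contra h
        have h' : i < N := by
          rw [not_le] at h
          exact h
        rw [u1 i h'] at h3
        have := Q.ulow i h' (fun h'' => h2 ((g1 i h').2 h''))
        omega
      refine le_trans (Set.ncard_le_ncard hsub (finite_toSet _)) ?_
      rw [Set.ncard_coe_finset, Nat.card_Ico]
      omega
    · refine le_trans (Set.ncard_le_ncard ?_ ((Set.finite_Iio N).subset fun x hx => hx.1))
        (Q.ucard u)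
      rintro i ⟨h1, h2, h3⟩
      rcases Nat.lt_or_ge i N with h | h
      · exact ⟨h, fun h' => h2 ((g1 i h).2 h'), by rw [← u1 i h]; exact h3⟩
      · exact absurd (by rw [← h3, u2 i h]) hu
  · intro i hi hg
    rcases Nat.lt_or_ge i N with h | h
    · rw [u1 i h]
      exact Q.ulow i h (fun h' => hg ((g1 i h).2 h'))
    · rw [u2 i h]
      exact h
  · have h1 : ∑ i ∈ range M, (B' i).card = ∑ i ∈ range N, (B' i).card +
        ∑ i ∈ Finset.Ico N M, (B' i).card := by
      rw [range_eq_Ico, range_eq_Ico, sum_Ico_consecutive _ (Nat.zero_le _) hNM]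
    have h2 : ∑ i ∈ Finset.Ico N M, (B' i).card = W.card := by
      have h3 : ∑ i ∈ Finset.Ico N M, (B' i).card = ∑ i ∈ Finset.Ico N M, 1 := by
        refine sum_congr rfl ?_
        intro i hi
        rw [mem_Ico] at hi
        obtain ⟨a, _, h4, _⟩ := r4 i hi.1 hi.2
        rw [h4, card_singleton]
      rw [h3, ← card_eq_sum_ones, Nat.card_Ico]
      omega
    rw [cost, h1, h2, cost]
    congr 1
    exact sum_congr rfl (fun i hi => by rw [b1 i (mem_range.1 hi)])

end

end Pool.Agent.H20.Tpf
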