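import Pool.Agent.H20.Tpf.Defs

/-! # Lower bound: attached copies (helper944) -/

set_option autoImplicit false

namespace Pool.Agent.H20.Tpf
open Finset

theorem pg_adj {n : ℕ} (i j : Fin n) :
    (SimpleGraph.pathGraph n).Adj i j ↔ i.val + 1 = j.val ∨ j.val + 1 = i.val := by
  rw [SimpleGraph.pathGraph_adj]

/-- along the path there is a change between the indices -/
theorem exists_change {n : ℕ} (P : Fin n → Prop) (x y : Fin n) (hx : P x) (hy : ¬ P y) :
    ∃ i j : Fin n, (SimpleGraph.pathGraph n).Adj i j ∧ P i ∧ ¬ P j := by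
  classical
  by_contra hcon
  push Not at hcon
  have hstep : ∀ i j : Fin n, (i.val + 1 = j.val ∨ j.val + 1 = i.val) → (P i ↔ P j) := by
    intro i j h
    constructor
    · intro hi
      exact hcon i j ((pg_adj i j).2 h) hi
    · intro hj
      exact hcon j i ((pg_adj j i).2 h.symm) hj
  have key : ∀ (m : ℕ) (hm : m < n), (P ⟨m, hm⟩ ↔ P ⟨0, by omega⟩) := by
    intro m
    induction m with
    | zero => intro hm; exact Iff.rfl
    | succ m ih =>
      intro hm
      rw [← ih (by omega)]
      exact hstep _ _ (Or.inr rfl)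
  exact hy ((key y.1 y.2).2 ((key x.1 x.2).1 hx))

/-- T5 -/
theorem att_free {α β : Type} {H : SimpleGraph α} {N : ℕ} {D : SimpleGraph β} {t : ℕ} (ht : 2 ≤ t)
    (hH : IsEmpty (SimpleGraph.pathGraph t ↪g H)) (hD : IsEmpty (SimpleGraph.pathGraph (t + 2) ↪g D)) :
    IsEmpty (SimpleGraph.pathGraph (t + 2) ↪g Att H N D) := by
  classical
  refine ⟨fun φ => ?_⟩
  have hadj : ∀ i j, (Att H N D).Adj (φ i) (φ j) ↔ (i.val + 1 = j.val ∨ j.val + 1 = i.val) := by
    intro i j
    rw [← pg_adj]
    exact φ.map_rel_iff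
  have hinj : Function.Injective φ := φ.injective
  by_cases hall : ∀ i, ∃ q, φ i = Sum.inr q
  · -- all in one copy
    choose q hq using hall
    have hs : ∀ i j : Fin (t + 2), (q i).1 = (q j).1 ∧ (q i).2.1 = (q j).2.1 := by
      intro i j
      by_contra hne
      obtain ⟨x, y, h1, h2, h3⟩ := exists_change (fun k => (q i).1 = (q k).1 ∧ (q i).2.1 = (q k).2.1) i j
        ⟨rfl, rfl⟩ hne
      have h4 := (hadj x y).2 ((pg_adj x y).1 h1)
      rw [hq x, hq y] at h4
      exact h3 ⟨h2.1.trans h4.1, h2.2.trans h4.2.1⟩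
    refine hD.false ⟨⟨fun i => (q i).2.2, ?_⟩, ?_⟩
    · intro i j hij
      apply hinj
      rw [hq i, hq j]
      congr 1
      exact Prod.ext (hs i j).1 (Prod.ext (hs i j).2 hij)
    · intro i j
      show D.Adj (q i).2.2 (q j).2.2 ↔ _
      rw [pg_adj, ← hadj, hq i, hq j]
      constructor
      · intro h
        exact ⟨(hs i j).1, (hs i j).2, h⟩
      · intro h
        exact h.2.2
  · push Not at hall
    obtain ⟨m, hm⟩ := hall
    -- inner vertices of the path are in `H`
    have hin : ∀ j : Fin (t + 2), 0 < j.val → j.val < t + 1 → ∃ v, φ j = Sum.inl v := by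
      intro j hj0 hj1
      rcases hj : φ j with v | ⟨a, c, d⟩
      · exact ⟨v, rfl⟩
      · exfalso
        obtain ⟨x, y, h1, ⟨cx, dx, h2⟩, h3⟩ := exists_change
          (fun k => ∃ c' d', φ k = Sum.inr (a, c', d')) j m ⟨c, d, hj⟩
          (by rintro ⟨c', d', h⟩; exact hm _ h)
        have h4 := (hadj x y).2 ((pg_adj x y).1 h1)
        have h5 : φ y = Sum.inl a := by
          rcases hy : φ y with b | ⟨a', c', d'⟩
          · rw [h2, hy] at h4
            have h4' : b = a := h4
            rw [h4']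
          · exfalso
            rw [h2, hy] at h4
            have h4' : a = a' := h4.1
            apply h3
            exact ⟨c', d', by rw [hy, ← h4']⟩
        have h6 : (Att H N D).Adj (φ y) (φ j) := by
          rw [h5, hj]
          exact (rfl : a = a)
        rw [hadj] at h6
        -- the other neighbour of `j`
        obtain ⟨z, hz1, hz2⟩ : ∃ z : Fin (t + 2), (z.val + 1 = j.val ∨ j.val + 1 = z.val) ∧ z ≠ y := by
          rcases h6 with h6 | h6
          · refine ⟨⟨j.val + 1, by omega⟩, Or.inr rfl, ?_⟩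
            intro h
            have := congrArg Fin.val h
            simp only at this
            omega
          · refine ⟨⟨j.val - 1, by omega⟩, Or.inl (by simp only; omega), ?_⟩
            intro h
            have := congrArg Fin.val h
            simp only at this
            omega
        have h7 := (hadj z j).2 hz1
        have h8 : ¬ (Att H N D).Adj (φ y) (φ z) := by
          rw [hadj]
          have hne : z.val ≠ y.val := fun h => hz2 (Fin.ext h)
          omega
        rcases hz : φ z with b | ⟨a', c', d'⟩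
        · rw [hz, hj] at h7
          have h7' : b = a := h7
          apply hz2
          apply hinj
          rw [hz, h5, h7']
        · rw [hz, hj] at h7
          have h7' : a' = a := h7.1
          apply h8
          rw [h5, hz]
          exact h7'.symm
    have hin' : ∀ i : Fin t, ∃ v, φ ⟨i.val + 1, by omega⟩ = Sum.inl v := by
      intro i
      exact hin _ (by simp) (by have := i.2; simp only; omega)
    choose v hv using hin'
    refine hH.false ⟨⟨v, ?_⟩, ?_⟩
    · intro i j hij
      have h1 : φ ⟨i.val + 1, by omega⟩ = φ ⟨j.val + 1, by omega⟩ := by rw [hv i, hv j, hij]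
      have h2 := congrArg Fin.val (hinj h1)
      simp only at h2
      exact Fin.ext (by omega)
    · intro i j
      show H.Adj (v i) (v j) ↔ _
      have h1 := hadj ⟨i.val + 1, by omega⟩ ⟨j.val + 1, by omega⟩
      rw [hv i, hv j] at h1
      rw [pg_adj]
      have h2 : (Att H N D).Adj (Sum.inl (v i)) (Sum.inl (v j)) ↔ H.Adj (v i) (v j) := Iff.rfl
      rw [← h2, h1]
      simp only
      omega

/-- T7 -/
theorem att_depth {α β : Type} [Finite α] [Finite β] {H : SimpleGraph α} {N : ℕ} {D : SimpleGraph β}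
    {a b : ℕ} (hN : a + b ≤ N)
    (hH : ∀ le : α → α → Prop, IsForestOrder H le → ∃ v, a ≤ {u | le u v}.ncard)
    (hD : ∀ le : β → β → Prop, IsForestOrder D le → ∃ v, b ≤ {u | le u v}.ncard)
    (le : α ⊕ (α × Fin N × β) → α ⊕ (α × Fin N × β) → Prop) (h : IsForestOrder (Att H N D) le) :
    ∃ v, a + b ≤ {u | le u v}.ncard := by
  classical
  obtain ⟨h1, h2, h3, h4, h5⟩ := h
  obtain ⟨v, hv⟩ := hH (fun x y => le (Sum.inl x) (Sum.inl y)) ⟨fun x => h1 _, fun x y z => h2 _ _ _,
    fun x y hx hy => Sum.inl.inj (h3 _ _ hx hy), fun x y z => h4 _ _ _, fun x y hxy => h5 _ _ hxy⟩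
  by_cases hc : ∀ i : Fin N, ∃ d, le (Sum.inr (v, i, d)) (Sum.inl v)
  · choose d hd using hc
    refine ⟨Sum.inl v, ?_⟩
    have h6 : Set.range (fun i : Fin N => (Sum.inr (v, i, d i) : α ⊕ (α × Fin N × β))) ⊆
        {u | le u (Sum.inl v)} := by
      rintro _ ⟨i, rfl⟩
      exact hd i
    have h7 := Set.ncard_le_ncard h6 (Set.toFinite _)
    have h8 : (Set.range (fun i : Fin N => (Sum.inr (v, i, d i) : α ⊕ (α × Fin N × β)))).ncard = N := by
      rw [← Set.image_univ, Set.ncard_image_of_injective, Set.ncard_univ, Nat.card_eq_fintype_card,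
        Fintype.card_fin]
      intro i j hij
      have := Sum.inr.inj hij
      exact (Prod.ext_iff.1 (Prod.ext_iff.1 this).2).1
    omega
  · push Not at hc
    obtain ⟨i, hi⟩ := hc
    have hi' : ∀ d, le (Sum.inl v) (Sum.inr (v, i, d)) := by
      intro d
      rcases h5 (Sum.inl v) (Sum.inr (v, i, d)) (rfl : v = v) with h | h
      · exact h
      · exact absurd h (hi d)
    obtain ⟨d0, hd0⟩ := hD (fun x y => le (Sum.inr (v, i, x)) (Sum.inr (v, i, y)))
      ⟨fun x => h1 _, fun x y z => h2 _ _ _, fun x y hx hy => by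
          have := Sum.inr.inj (h3 _ _ hx hy)
          exact (Prod.ext_iff.1 (Prod.ext_iff.1 this).2).2,
        fun x y z => h4 _ _ _, fun x y hxy => h5 _ _ ⟨rfl, rfl, hxy⟩⟩
    refine ⟨Sum.inr (v, i, d0), ?_⟩
    have e1 : (Sum.inl '' {u | le (Sum.inl u) (Sum.inl v)} : Set (α ⊕ (α × Fin N × β))).ncard =
        {u | le (Sum.inl u) (Sum.inl v)}.ncard := Set.ncard_image_of_injective _ Sum.inl_injective
    have e2 : ((fun x => Sum.inr (v, i, x)) '' {u | le (Sum.inr (v, i, u)) (Sum.inr (v, i, d0))} :
        Set (α ⊕ (α × Fin N × β))).ncard = {u | le (Sum.inr (v, i, u)) (Sum.inr (v, i, d0))}.ncard := by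
      apply Set.ncard_image_of_injective
      intro x y hxy
      have := Sum.inr.inj hxy
      exact (Prod.ext_iff.1 (Prod.ext_iff.1 this).2).2
    have e3 : (Sum.inl '' {u | le (Sum.inl u) (Sum.inl v)} ∪
        (fun x => Sum.inr (v, i, x)) '' {u | le (Sum.inr (v, i, u)) (Sum.inr (v, i, d0))} :
        Set (α ⊕ (α × Fin N × β))) ⊆ {u | le u (Sum.inr (v, i, d0))} := by
      rintro _ (⟨u, hu, rfl⟩ | ⟨u, hu, rfl⟩)
      · exact h2 _ _ _ hu (hi' d0)
      · exact hu
    have e4 := Set.ncard_le_ncard e3 (Set.toFinite _)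
    rw [Set.ncard_union_eq ?_ (Set.toFinite _) (Set.toFinite _), e1, e2] at e4
    · omega
    · rw [Set.disjoint_left]
      rintro _ ⟨u, _, rfl⟩ ⟨w, _, hw⟩
      exact absurd hw (by simp)

end Pool.Agent.H20.Tpf
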