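import Pool.Agent.H20.Tpf.Glue
import Pool.Agent.H20.Tpf.Lower

/-! # The lower bound family -/

set_option autoImplicit false
set_option linter.unusedSectionVars false
set_option linter.unusedVariables false

namespace Pool.Agent.H20.Tpf
open Finset

lemma top_free {n t : ℕ} (ht : 3 ≤ t) :
    IsEmpty (SimpleGraph.pathGraph t ↪g (⊤ : SimpleGraph (Fin n))) := by
  refine ⟨fun φ => ?_⟩
  have h1 : ¬ (SimpleGraph.pathGraph t).Adj ⟨0, by omega⟩ ⟨2, by omega⟩ := by
    rw [SimpleGraph.pathGraph_adj]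
    simp
  rw [← φ.map_adj_iff, SimpleGraph.top_adj] at h1
  apply h1
  intro h
  have := φ.injective h
  simp at this

lemma top_tw (k : ℕ) : HasTW (⊤ : SimpleGraph (Fin (k + 1))) k := by
  refine ⟨1, ⊥, fun _ => univ, .of_subsingleton, fun v => ⟨0, mem_univ _⟩,
    fun u v _ => ⟨0, mem_univ _, mem_univ _⟩, ?_, fun t => by simp⟩
  intro v
  have hne : Nonempty {t : Fin 1 | v ∈ (univ : Finset (Fin (k + 1)))} := ⟨⟨0, show v ∈ univ from mem_univ _⟩⟩
  exact .of_subsingleton

lemma top_depth (k : ℕ) (le : Fin (k + 1) → Fin (k + 1) → Prop)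
    (h : IsForestOrder (⊤ : SimpleGraph (Fin (k + 1))) le) : ∃ v, k + 1 ≤ {u | le u v}.ncard := by
  classical
  obtain ⟨h1, h2, h3, h4, h5⟩ := h
  obtain ⟨v, _, hv⟩ := exists_max_image (univ : Finset (Fin (k + 1)))
    (fun v => {u | le u v}.ncard) ⟨0, mem_univ _⟩
  refine ⟨v, ?_⟩
  have h6 : {u | le u v} = Set.univ := by
    rw [Set.eq_univ_iff_forall]
    intro u
    by_contra hu
    have hvu : le v u := by
      by_cases e : u = v
      · rw [e]
        exact h1 v
      · rcases h5 u v e with h | h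
        · exact absurd h hu
        · exact h
    have h7 : {w | le w v} ⊂ {w | le w u} := by
      exact Set.ssubset_iff_exists.2 ⟨fun w hw => h2 _ _ _ hw hvu, u, h1 u, hu⟩
    have h8 := Set.ncard_lt_ncard h7 (Set.toFinite _)
    have h9 := hv u (mem_univ _)
    omega
  rw [h6, Set.ncard_univ, Nat.card_fin]

theorem family : ∀ (m k : ℕ), ∃ (α : Type) (_ : Finite α) (H : SimpleGraph α),
    IsEmpty (SimpleGraph.pathGraph (2 * m + 3) ↪g H) ∧ HasTW H k ∧
    ∀ le : α → α → Prop, IsForestOrder H le → ∃ v, (k + m + 1).choose (m + 1) ≤ {u | le u v}.ncard := by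
  intro m
  induction m with
  | zero =>
    intro k
    refine ⟨Fin (k + 1), inferInstance, ⊤, top_free (by omega), top_tw k, fun le h => ?_⟩
    obtain ⟨v, hv⟩ := top_depth k le h
    exact ⟨v, by simpa using hv⟩
  | succ m ihm =>
    intro k
    induction k with
    | zero =>
      refine ⟨Fin 1, inferInstance, ⊤, top_free (by omega), top_tw 0, fun le h => ?_⟩
      obtain ⟨v, hv⟩ := top_depth 0 le h
      exact ⟨v, by simpa using hv⟩
    | succ k ihk =>
      obtain ⟨α, hα, H, hH1, hH2, hH3⟩ := ihm (k + 1)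
      obtain ⟨β, hβ, D, hD1, hD2, hD3⟩ := ihk
      have e1 : 2 * (m + 1) + 3 = 2 * m + 3 + 2 := by ring
      rw [e1] at hD1 ⊢
      refine ⟨_, inferInstance, Att H ((k + 1 + m + 1).choose (m + 1) +
        (k + (m + 1) + 1).choose (m + 1 + 1)) D, att_free (by omega) hH1 hD1, att_tw hH2 hD2,
        fun le h => ?_⟩
      obtain ⟨v, hv⟩ := att_depth le_rfl hH3 hD3 le h
      refine ⟨v, le_trans (le_of_eq ?_) hv⟩
      have e2 : k + 1 + (m + 1) + 1 = (k + m + 2) + 1 := by ring
      rw [e2, Nat.choose_succ_succ]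
      congr 2 <;> ring_nf

end Pool.Agent.H20.Tpf
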