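import Pool.Agent.H20.Tpf.Defs

/-! # Gluing tree decompositions (helper675) -/

set_option autoImplicit false
set_option linter.unusedSectionVars false

namespace Pool.Agent.H20.Tpf
open Finset

/-- the graph obtained from `T0` by attaching, for each `c`, a copy of `S` by an edge from `r c` to
the node `s0` of the copy -/
def Glue {ι κ ν : Type} (T0 : SimpleGraph ι) (S : SimpleGraph ν) (r : κ → ι) (s0 : ν) :
    SimpleGraph (ι ⊕ (κ × ν)) where
  Adj x y := match x, y with
    | .inl a, .inl b => T0.Adj a b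
    | .inl a, .inr p => a = r p.1 ∧ p.2 = s0
    | .inr p, .inl a => a = r p.1 ∧ p.2 = s0
    | .inr p, .inr q => p.1 = q.1 ∧ S.Adj p.2 q.2
  symm := ⟨by
    rintro (a | p) (b | q) h
    · exact h.symm
    · exact h
    · exact h
    · exact ⟨h.1.symm, h.2.symm⟩⟩
  loopless := ⟨by
    rintro (a | p) h
    · exact T0.loopless.irrefl _ h
    · exact S.loopless.irrefl _ h.2⟩

section Glue
variable {ι κ ν : Type} {T0 : SimpleGraph ι} {S : SimpleGraph ν} {r : κ → ι} {s0 : ν}

def Glue.homL : T0 →g Glue T0 S r s0 where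
  toFun := Sum.inl
  map_rel' h := h

def Glue.homR (c : κ) : S →g Glue T0 S r s0 where
  toFun y := Sum.inr (c, y)
  map_rel' h := ⟨rfl, h⟩

lemma Glue.adjLR (c : κ) : (Glue T0 S r s0).Adj (Sum.inl (r c)) (Sum.inr (c, s0)) := ⟨rfl, rfl⟩

/-- connectivity of an induced subgraph from connectivity of the pieces -/
lemma Glue.induce_connected (P : Set (ι ⊕ (κ × ν)))
    (hL : (T0.induce {t | Sum.inl t ∈ P}).Connected)
    (hR : ∀ c y, Sum.inr (c, y) ∈ P → Sum.inl (r c) ∈ P ∧ (∀ z, Sum.inr (c, z) ∈ P))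
    (hS : S.Connected) : ((Glue T0 S r s0).induce P).Connected := by
  classical
  obtain ⟨t0⟩ := hL.nonempty
  have hb : Sum.inl t0.1 ∈ P := t0.2
  have key : ∀ x : P, ((Glue T0 S r s0).induce P).Reachable ⟨Sum.inl t0.1, hb⟩ x := by
    have h1 : ∀ t (ht : Sum.inl t ∈ P),
        ((Glue T0 S r s0).induce P).Reachable ⟨Sum.inl t0.1, hb⟩ ⟨Sum.inl t, ht⟩ := by
      intro t ht
      have := hL.preconnected t0 ⟨t, ht⟩
      exact this.map (SimpleGraph.induceHom (s := {t | Sum.inl t ∈ P}) (t := P)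
        (Glue.homL (S := S) (r := r) (s0 := s0)) (fun t ht => ht))
    rintro ⟨x, hx⟩
    rcases x with t | ⟨c, y⟩
    · exact h1 t hx
    · obtain ⟨hr, hall⟩ := hR c y hx
      have h2 := h1 (r c) hr
      have h3 : ((Glue T0 S r s0).induce P).Adj ⟨Sum.inl (r c), hr⟩ ⟨Sum.inr (c, s0), hall s0⟩ :=
        ⟨rfl, rfl⟩
      have h4 := (hS.preconnected s0 y).map (G' := (Glue T0 S r s0).induce P)
        ⟨fun z => ⟨Sum.inr (c, z), hall z⟩, fun h => ⟨rfl, h⟩⟩
      exact (h2.trans h3.reachable).trans h4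
  exact (SimpleGraph.connected_iff_exists_forall_reachable _).2 ⟨_, key⟩

lemma Glue.induce_connectedR (P : Set (ι ⊕ (κ × ν))) (c : κ) (Q : Set ν)
    (hP : ∀ x, x ∈ P ↔ ∃ y ∈ Q, x = Sum.inr (c, y)) (hQ : (S.induce Q).Connected) :
    ((Glue T0 S r s0).induce P).Connected := by
  classical
  obtain ⟨y0⟩ := hQ.nonempty
  have hm : ∀ y : Q, Sum.inr (c, y.1) ∈ P := fun y => (hP _).2 ⟨y.1, y.2, rfl⟩
  refine (SimpleGraph.connected_iff_exists_forall_reachable _).2 ⟨⟨_, hm y0⟩, ?_⟩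
  rintro ⟨x, hx⟩
  obtain ⟨y, hy, rfl⟩ := (hP x).1 hx
  exact (hQ.preconnected y0 ⟨y, hy⟩).map (G' := (Glue T0 S r s0).induce P)
        ⟨fun z => ⟨Sum.inr (c, z.1), hm z⟩, fun h => ⟨rfl, h⟩⟩

lemma Glue.connected (hL : T0.Connected) (hS : S.Connected) : (Glue T0 S r s0).Connected := by
  classical
  obtain ⟨t0⟩ := hL.nonempty
  refine (SimpleGraph.connected_iff_exists_forall_reachable _).2 ⟨Sum.inl t0, ?_⟩
  rintro (t | ⟨c, y⟩)
  · exact (hL.preconnected t0 t).map Glue.homL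
  · exact (((hL.preconnected t0 (r c)).map Glue.homL).trans (Glue.adjLR c).reachable).trans
      ((hS.preconnected s0 y).map (Glue.homR c))

lemma Glue.isTree [Finite ι] [Finite κ] [Finite ν] (hL : T0.IsTree) (hS : S.IsTree) :
    (Glue T0 S r s0).IsTree := by
  classical
  have := Fintype.ofFinite ι
  have := Fintype.ofFinite κ
  have := Fintype.ofFinite ν
  have hc : (Glue T0 S r s0).Connected := Glue.connected hL.connected hS.connected
  refine SimpleGraph.isTree_iff_connected_and_card.2 ⟨hc, le_antisymm ?_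
    hc.card_vert_le_card_edgeSet_add_one⟩
  have hL' := hL.card_edgeFinset
  have hS' := hS.card_edgeFinset
  have hsub : (Glue T0 S r s0).edgeFinset ⊆
      (T0.edgeFinset.image (Sym2.map Sum.inl)) ∪
      (((univ : Finset κ).image (fun c => s(Sum.inl (r c), Sum.inr (c, s0)))) ∪
      (((univ : Finset κ) ×ˢ S.edgeFinset).image
        (fun p => p.2.map (fun y => Sum.inr (p.1, y))))) := by
    intro e he
    induction e with
    | h x y =>
      rw [SimpleGraph.mem_edgeFinset, SimpleGraph.mem_edgeSet] at he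
      rcases x with a | ⟨c, x⟩ <;> rcases y with b | ⟨c', y⟩
      · refine mem_union_left _ (mem_image.2 ⟨s(a, b), ?_, rfl⟩)
        rw [SimpleGraph.mem_edgeFinset, SimpleGraph.mem_edgeSet]; exact he
      · obtain ⟨h1, h2⟩ := he
        refine mem_union_right _ (mem_union_left _ (mem_image.2 ⟨c', mem_univ _, ?_⟩))
        simp only at h1 h2
        rw [h1, h2]
      · obtain ⟨h1, h2⟩ := he
        refine mem_union_right _ (mem_union_left _ (mem_image.2 ⟨c, mem_univ _, ?_⟩))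
        simp only at h1 h2
        rw [h1, h2, Sym2.eq_swap]
      · obtain ⟨h1, h2⟩ := he
        refine mem_union_right _ (mem_union_right _ (mem_image.2 ⟨(c, s(x, y)), ?_, ?_⟩))
        · rw [mem_product]
          refine ⟨mem_univ _, ?_⟩
          rw [SimpleGraph.mem_edgeFinset, SimpleGraph.mem_edgeSet]; exact h2
        · simp only at h1
          subst h1
          rfl
  have h1 := (card_le_card hsub).trans ((card_union_le _ _).trans (Nat.add_le_add card_image_le
    ((card_union_le _ _).trans (Nat.add_le_add card_image_le card_image_le))))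
  rw [card_product, card_univ] at h1
  rw [Nat.card_eq_fintype_card, Nat.card_eq_fintype_card, ← SimpleGraph.edgeFinset_card,
    Fintype.card_sum, Fintype.card_prod, ← hS', Nat.mul_add]
  omega

end Glue

/-- a tree decomposition indexed by any finite type will do -/
lemma HasTW.of_type {V : Type} {G : SimpleGraph V} {k : ℕ} {ι : Type} [Finite ι]
    (T : SimpleGraph ι) (B : ι → Finset V) (hT : T.IsTree) (h1 : ∀ v : V, ∃ t, v ∈ B t)
    (h2 : ∀ u v : V, G.Adj u v → ∃ t, u ∈ B t ∧ v ∈ B t)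
    (h3 : ∀ v : V, (T.induce {t : ι | v ∈ B t}).Connected) (h4 : ∀ t, (B t).card ≤ k + 1) :
    HasTW G k := by
  classical
  have := Fintype.ofFinite ι
  let e := Fintype.equivFin ι
  let f : T.comap e.symm ≃g T := SimpleGraph.Iso.comap e.symm T
  refine ⟨Fintype.card ι, T.comap e.symm, fun i => B (e.symm i), f.isTree_iff.2 hT, ?_, ?_, ?_,
    fun t => h4 _⟩
  · intro v
    obtain ⟨t, ht⟩ := h1 v
    exact ⟨e t, by simpa using ht⟩
  · intro u v huv
    obtain ⟨t, ht⟩ := h2 u v huv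
    exact ⟨e t, by simpa using ht⟩
  · intro v
    have hb : Set.BijOn f {t | v ∈ B (e.symm t)} {t : ι | v ∈ B t} := by
      refine ⟨fun t ht => ht, f.injective.injOn, ?_⟩
      intro t ht
      exact ⟨e t, by simpa using ht, by simp [f]⟩
    exact (SimpleGraph.Iso.induce f hb).connected_iff.2 (h3 v)

/-- T6 -/
theorem att_tw {α β : Type} [Finite α] {H : SimpleGraph α} {N : ℕ} {D : SimpleGraph β} {k : ℕ}
    (hH : HasTW H (k + 1)) (hD : HasTW D k) : HasTW (Att H N D) (k + 1) := by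
  classical
  obtain ⟨n, T0, B0, hT0, c0, e0, i0, w0⟩ := hH
  obtain ⟨m, T1, B1, hT1, c1, e1, i1, w1⟩ := hD
  choose r hr using c0
  obtain ⟨s0⟩ := hT1.connected.nonempty
  let B : Fin n ⊕ ((α × Fin N) × Fin m) → Finset (α ⊕ (α × Fin N × β)) := fun x => match x with
    | .inl t => (B0 t).image Sum.inl
    | .inr (c, y) => insert (Sum.inl c.1) ((B1 y).image fun b => Sum.inr (c.1, c.2, b))
  have mLL : ∀ a t, Sum.inl a ∈ B (Sum.inl t) ↔ a ∈ B0 t := by
    intro a t
    simp [B]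
  have mLR : ∀ a c y, Sum.inl a ∈ B (Sum.inr (c, y)) ↔ a = c.1 := by
    intro a c y
    simp [B]
  have mRL : ∀ p t, Sum.inr p ∉ B (Sum.inl t) := by
    intro a t
    simp [B]
  have mRR : ∀ a i b c y, Sum.inr (a, i, b) ∈ B (Sum.inr (c, y)) ↔ c = (a, i) ∧ b ∈ B1 y := by
    rintro a i b ⟨c, j⟩ y
    simp only [B, mem_insert, reduceCtorEq, mem_image, Sum.inr.injEq, Prod.mk.injEq, false_or]
    constructor
    · rintro ⟨b', hb, rfl, rfl, rfl⟩
      exact ⟨⟨rfl, rfl⟩, hb⟩
    · rintro ⟨⟨rfl, rfl⟩, hb⟩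
      exact ⟨b, hb, rfl, rfl, rfl⟩
  refine HasTW.of_type (Glue T0 T1 (fun c : α × Fin N => r c.1) s0) B (Glue.isTree hT0 hT1)
    ?_ ?_ ?_ ?_
  · rintro (a | ⟨a, i, b⟩)
    · exact ⟨Sum.inl (r a), (mLL _ _).2 (hr a)⟩
    · obtain ⟨y, hy⟩ := c1 b
      exact ⟨Sum.inr ((a, i), y), (mRR _ _ _ _ _).2 ⟨rfl, hy⟩⟩
  · rintro (a | ⟨a, i, b⟩) (a' | ⟨a', i', b'⟩) h
    · obtain ⟨t, h1, h2⟩ := e0 a a' h
      exact ⟨Sum.inl t, (mLL _ _).2 h1, (mLL _ _).2 h2⟩
    · have h' : a = a' := h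
      obtain ⟨y, hy⟩ := c1 b'
      exact ⟨Sum.inr ((a', i'), y), (mLR _ _ _).2 h', (mRR _ _ _ _ _).2 ⟨rfl, hy⟩⟩
    · have h' : a' = a := h
      obtain ⟨y, hy⟩ := c1 b
      exact ⟨Sum.inr ((a, i), y), (mRR _ _ _ _ _).2 ⟨rfl, hy⟩, (mLR _ _ _).2 h'⟩
    · obtain ⟨h1, h2, h3⟩ := (h : a = a' ∧ i = i' ∧ D.Adj b b')
      subst h1 h2
      obtain ⟨y, h1, h2⟩ := e1 b b' h3
      exact ⟨Sum.inr ((a, i), y), (mRR _ _ _ _ _).2 ⟨rfl, h1⟩, (mRR _ _ _ _ _).2 ⟨rfl, h2⟩⟩
  · rintro (a | ⟨a, i, b⟩)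
    · refine Glue.induce_connected _ ?_ ?_ hT1.connected
      · have : {t | Sum.inl t ∈ {t | Sum.inl a ∈ B t}} = {t | a ∈ B0 t} := by
          ext t
          exact mLL a t
        rw [this]
        exact i0 a
      · rintro c y hy
        have hac : a = c.1 := (mLR _ _ _).1 hy
        refine ⟨?_, fun z => (mLR _ _ _).2 hac⟩
        show Sum.inl a ∈ B (Sum.inl (r c.1))
        rw [mLL, hac]
        exact hr _
    · refine Glue.induce_connectedR _ (a, i) {y | b ∈ B1 y} ?_ (i1 b)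
      rintro (t | ⟨c, y⟩)
      · constructor
        · intro h
          exact absurd h (mRL _ _)
        · rintro ⟨y, _, h⟩
          simp at h
      · constructor
        · intro h
          obtain ⟨h1, h2⟩ := (mRR _ _ _ _ _).1 h
          exact ⟨y, h2, by rw [h1]⟩
        · rintro ⟨y', h1, h2⟩
          simp only [Sum.inr.injEq, Prod.mk.injEq] at h2
          obtain ⟨h2, h3⟩ := h2
          subst h3
          exact (mRR _ _ _ _ _).2 ⟨h2, h1⟩
  · rintro (t | ⟨c, y⟩)
    · exact card_image_le.trans (w0 t)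
    · exact (card_insert_le _ _).trans (Nat.add_le_add_right (card_image_le.trans (w1 y)) 1)

end Pool.Agent.H20.Tpf
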