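import Pool.Agent.H20.Tpf.Defs

/-! # Recursive treedepth and rooted forests (helper645) -/

set_option autoImplicit false

namespace Pool.Agent.H20.Tpf
open Finset

section
variable {V : Type} [Fintype V] [DecidableEq V] {G : SimpleGraph V}

/-- T3, for sets -/
theorem TD.forest_aux {X : Finset V} {d : ℕ} (h : TD G X d) :
    ∃ le : V → V → Prop, (∀ a, le a a) ∧ (∀ a b c, le a b → le b c → le a c) ∧
      (∀ a b, le a b → le b a → a = b) ∧ (∀ a b c, le a c → le b c → le a b ∨ le b a) ∧
      (∀ a b, le a b → a ≠ b → a ∈ X ∧ b ∈ X) ∧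
      (∀ a ∈ X, ∀ b ∈ X, G.Adj a b → le a b ∨ le b a) ∧
      ∀ v ∈ X, ∃ s : Finset V, (∀ u, le u v → u ∈ s) ∧ s.card ≤ d := by
  induction h with
  | empty d =>
    exact ⟨Eq, fun _ => rfl, fun _ _ _ h1 h2 => h1.trans h2, fun _ _ h1 _ => h1,
      fun _ _ _ h1 h2 => Or.inl (h1.trans h2.symm), fun _ _ h1 h2 => absurd h1 h2,
      fun a ha => absurd ha (Finset.notMem_empty a), fun v hv => absurd hv (Finset.notMem_empty v)⟩
  | @del X d a ha h ih =>
    obtain ⟨le, h1, h2, h3, h4, h5, h6, h7⟩ := ih
    have ha' : ∀ x, le x a → x = a := by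
      intro x hx
      by_contra hne
      exact absurd (h5 x a hx hne).2 (Finset.notMem_erase a X)
    have hX : ∀ x y, le x y → y ∈ X → x ∈ X := by
      intro x y hxy hy
      by_cases hne : x = y
      · rw [hne]; exact hy
      · exact Finset.mem_of_mem_erase (h5 x y hxy hne).1
    have hX' : ∀ x y, le x y → x ∈ X → y ∈ X := by
      intro x y hxy hy
      by_cases hne : x = y
      · rw [← hne]; exact hy
      · exact Finset.mem_of_mem_erase (h5 x y hxy hne).2
    refine ⟨fun x y => le x y ∨ (x = a ∧ y ∈ X), fun x => Or.inl (h1 x), ?_, ?_, ?_, ?_, ?_, ?_⟩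
    · rintro x y z (hxy | ⟨rfl, hy⟩) (hyz | ⟨hy', hz⟩)
      · exact Or.inl (h2 x y z hxy hyz)
      · right
        rw [hy'] at hxy
        exact ⟨ha' x hxy, hz⟩
      · exact Or.inr ⟨rfl, hX' y z hyz hy⟩
      · exact Or.inr ⟨rfl, hz⟩
    · rintro x y (hxy | ⟨hx, hy⟩) (hyx | ⟨hy', hx'⟩)
      · exact h3 x y hxy hyx
      · rw [hy'] at hxy ⊢
        exact ha' x hxy
      · rw [hx] at hyx ⊢
        exact (ha' y hyx).symm
      · rw [hx, hy']
    · rintro x y z (hxz | ⟨hx, hz⟩) (hyz | ⟨hy, hz'⟩)
      · rcases h4 x y z hxz hyz with h | h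
        · exact Or.inl (Or.inl h)
        · exact Or.inr (Or.inl h)
      · exact Or.inr (Or.inr ⟨hy, hX x z hxz hz'⟩)
      · exact Or.inl (Or.inr ⟨hx, hX y z hyz hz⟩)
      · left; left
        rw [hx, hy]
        exact h1 a
    · rintro x y (hxy | ⟨hx, hy⟩) hne
      · exact ⟨Finset.mem_of_mem_erase (h5 x y hxy hne).1, Finset.mem_of_mem_erase (h5 x y hxy hne).2⟩
      · exact ⟨hx ▸ ha, hy⟩
    · intro x hx y hy hxy
      by_cases hxa : x = a
      · exact Or.inl (Or.inr ⟨hxa, hy⟩)
      · by_cases hya : y = a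
        · exact Or.inr (Or.inr ⟨hya, hx⟩)
        · rcases h6 x (Finset.mem_erase.2 ⟨hxa, hx⟩) y (Finset.mem_erase.2 ⟨hya, hy⟩) hxy with h | h
          · exact Or.inl (Or.inl h)
          · exact Or.inr (Or.inl h)
    · intro v hv
      by_cases hva : v = a
      · refine ⟨{a}, ?_, ?_⟩
        · rintro u (hu | ⟨hu, _⟩)
          · rw [hva] at hu
            rw [Finset.mem_singleton]
            exact ha' u hu
          · rw [Finset.mem_singleton]
            exact hu
        · rw [Finset.card_singleton]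
          omega
      · obtain ⟨s, hs1, hs2⟩ := h7 v (Finset.mem_erase.2 ⟨hva, hv⟩)
        refine ⟨insert a s, ?_, (Finset.card_insert_le a s).trans (by omega)⟩
        rintro u (hu | ⟨hu, _⟩)
        · exact Finset.mem_insert_of_mem (hs1 u hu)
        · rw [hu]
          exact Finset.mem_insert_self a s
  | @union X Y d hdis htouch hX hY ihX ihY =>
    obtain ⟨le, h1, h2, h3, h4, h5, h6, h7⟩ := ihX
    obtain ⟨le', g1, g2, g3, g4, g5, g6, g7⟩ := ihY
    have hXY : ∀ x, x ∈ X → x ∈ Y → False := fun x hx hy =>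
      (Finset.disjoint_left.1 hdis) hx hy
    refine ⟨fun x y => le x y ∨ le' x y, fun x => Or.inl (h1 x), ?_, ?_, ?_, ?_, ?_, ?_⟩
    · rintro x y z (hxy | hxy) (hyz | hyz)
      · exact Or.inl (h2 x y z hxy hyz)
      · by_cases e1 : x = y
        · exact Or.inr (e1 ▸ hyz)
        · by_cases e2 : y = z
          · exact Or.inl (e2 ▸ hxy)
          · exact (hXY y (h5 x y hxy e1).2 (g5 y z hyz e2).1).elim
      · by_cases e1 : x = y
        · exact Or.inl (e1 ▸ hyz)
        · by_cases e2 : y = z
          · exact Or.inr (e2 ▸ hxy)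
          · exact (hXY y (h5 y z hyz e2).1 (g5 x y hxy e1).2).elim
      · exact Or.inr (g2 x y z hxy hyz)
    · rintro x y (hxy | hxy) (hyx | hyx)
      · exact h3 x y hxy hyx
      · by_contra hne
        exact hXY x (h5 x y hxy hne).1 (g5 y x hyx (Ne.symm hne)).2
      · by_contra hne
        exact hXY x (h5 y x hyx (Ne.symm hne)).2 (g5 x y hxy hne).1
      · exact g3 x y hxy hyx
    · rintro x y z (hxz | hxz) (hyz | hyz)
      · rcases h4 x y z hxz hyz with h | h
        · exact Or.inl (Or.inl h)
        · exact Or.inr (Or.inl h)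
      · by_cases e1 : x = z
        · exact Or.inr (Or.inr (e1 ▸ hyz))
        · by_cases e2 : y = z
          · exact Or.inl (Or.inl (e2 ▸ hxz))
          · exact (hXY z (h5 x z hxz e1).2 (g5 y z hyz e2).2).elim
      · by_cases e1 : x = z
        · exact Or.inr (Or.inl (e1 ▸ hyz))
        · by_cases e2 : y = z
          · exact Or.inl (Or.inr (e2 ▸ hxz))
          · exact (hXY z (h5 y z hyz e2).2 (g5 x z hxz e1).2).elim
      · rcases g4 x y z hxz hyz with h | h
        · exact Or.inl (Or.inr h)
        · exact Or.inr (Or.inr h)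
    · rintro x y (hxy | hxy) hne
      · exact ⟨Finset.mem_union_left _ (h5 x y hxy hne).1, Finset.mem_union_left _ (h5 x y hxy hne).2⟩
      · exact ⟨Finset.mem_union_right _ (g5 x y hxy hne).1,
          Finset.mem_union_right _ (g5 x y hxy hne).2⟩
    · intro x hx y hy hxy
      rcases Finset.mem_union.1 hx with hx | hx <;> rcases Finset.mem_union.1 hy with hy | hy
      · rcases h6 x hx y hy hxy with h | h
        · exact Or.inl (Or.inl h)
        · exact Or.inr (Or.inl h)
      · exact absurd ⟨x, hx, y, hy, hxy⟩ htouch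
      · exact absurd ⟨y, hy, x, hx, hxy.symm⟩ htouch
      · rcases g6 x hx y hy hxy with h | h
        · exact Or.inl (Or.inr h)
        · exact Or.inr (Or.inr h)
    · intro v hv
      rcases Finset.mem_union.1 hv with hv | hv
      · obtain ⟨s, hs1, hs2⟩ := h7 v hv
        refine ⟨s, ?_, hs2⟩
        rintro u (hu | hu)
        · exact hs1 u hu
        · by_cases e : u = v
          · rw [e]
            exact hs1 v (h1 v)
          · exact (hXY v hv (g5 u v hu e).2).elim
      · obtain ⟨s, hs1, hs2⟩ := g7 v hv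
        refine ⟨s, ?_, hs2⟩
        rintro u (hu | hu)
        · by_cases e : u = v
          · rw [e]
            exact hs1 v (g1 v)
          · exact (hXY v (h5 u v hu e).2 hv).elim
        · exact hs1 u hu

/-- T3 -/
theorem TD.forest {d : ℕ} (h : TD G univ d) :
    ∃ le : V → V → Prop, IsForestOrder G le ∧ ∀ v, {u | le u v}.ncard ≤ d := by
  obtain ⟨le, h1, h2, h3, h4, _, h6, h7⟩ := h.forest_aux
  refine ⟨le, ⟨h1, h2, h3, h4, fun a b hab => h6 a (mem_univ a) b (mem_univ b) hab⟩, fun v => ?_⟩
  obtain ⟨s, hs1, hs2⟩ := h7 v (mem_univ v)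
  refine le_trans ?_ hs2
  rw [← Set.ncard_coe_finset]
  exact Set.ncard_le_ncard (fun u hu => hs1 u hu) (Finset.finite_toSet s)

/-- T3' -/
theorem TD.mono {X : Finset V} {d d' : ℕ} (h : TD G X d) (hd : d ≤ d') : TD G X d' := by
  induction h generalizing d' with
  | empty d => exact TD.empty d'
  | @del X d a ha h ih =>
    obtain ⟨e, rfl⟩ : ∃ e, d' = e + 1 := ⟨d' - 1, by omega⟩
    exact TD.del a ha (ih (by omega))
  | @union X Y d hdis ht hX hY ihX ihY => exact TD.union hdis ht (ihX hd) (ihY hd)

theorem TD.biUnion {d : ℕ} (P : Finset (Finset V)) (h : ∀ C ∈ P, TD G C d)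
    (hpair : ∀ C ∈ P, ∀ C' ∈ P, C ≠ C' → Disjoint C C' ∧ ¬ Touch G C C') :
    TD G (P.biUnion id) d := by
  induction P using Finset.induction_on with
  | empty =>
    rw [Finset.biUnion_empty]
    exact TD.empty d
  | @insert C P hC ih =>
    rw [Finset.biUnion_insert]
    have hne : ∀ C' ∈ P, C ≠ C' := fun C' h' he => hC (he ▸ h')
    refine TD.union ?_ ?_ (h C (Finset.mem_insert_self C P)) (ih
      (fun C' h' => h C' (Finset.mem_insert_of_mem h')) (fun C1 h1 C2 h2 =>
        hpair C1 (Finset.mem_insert_of_mem h1) C2 (Finset.mem_insert_of_mem h2)))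
    · rw [Finset.disjoint_biUnion_right]
      exact fun C' h' => (hpair C (Finset.mem_insert_self C P) C' (Finset.mem_insert_of_mem h')
        (hne C' h')).1
    · rintro ⟨x, hx, y, hy, hxy⟩
      obtain ⟨C', h', hy'⟩ := Finset.mem_biUnion.1 hy
      exact (hpair C (Finset.mem_insert_self C P) C' (Finset.mem_insert_of_mem h')
        (hne C' h')).2 ⟨x, hx, y, hy', hxy⟩

theorem mem_nb {S C : Finset V} {a : V} : a ∈ nb G S C ↔ a ∈ S ∧ ∃ y ∈ C, G.Adj a y := by
  classical
  unfold nb
  simp only [Finset.mem_filter]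

theorem nb_erase {S C : Finset V} {a : V} : nb G (S.erase a) C = (nb G S C).erase a := by
  ext x
  rw [Finset.mem_erase, mem_nb, mem_nb, Finset.mem_erase]
  tauto

/-- T4 -/
theorem td_chain (S : Finset V) (P : Finset (Finset V)) (D : ℕ) (hS : S.card ≤ D)
    (hdis : ∀ C ∈ P, Disjoint C S)
    (hpair : ∀ C ∈ P, ∀ C' ∈ P, C ≠ C' → Disjoint C C' ∧ ¬ Touch G C C')
    (F : Finset V → Prop)
    (hC : ∀ C ∈ P, TD G C (D - S.card) ∨ (F C ∧ TD G C (D - (nb G S C).card)))
    (hchain : ∀ C ∈ P, ∀ C' ∈ P, F C → F C' → nb G S C ⊆ nb G S C' ∨ nb G S C' ⊆ nb G S C) :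
    TD G (S ∪ P.biUnion id) D := by
  classical
  induction hn : S.card generalizing S P D with
  | zero =>
    have hS0 : S = ∅ := Finset.card_eq_zero.1 hn
    subst hS0
    rw [Finset.empty_union]
    refine TD.biUnion P (fun C h => ?_) hpair
    rcases hC C h with h1 | ⟨_, h1⟩
    · exact h1.mono (Nat.sub_le _ _)
    · exact h1.mono (Nat.sub_le _ _)
  | succ n ih =>
    have hSne : S.Nonempty := Finset.card_pos.1 (by omega)
    -- the choice of `a`
    have hchoice : ∃ a ∈ S, ∀ C ∈ P, F C → (nb G S C).Nonempty → a ∈ nb G S C := by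
      by_cases hex : ∃ C ∈ P, F C ∧ (nb G S C).Nonempty
      · obtain ⟨C0, h0, hmin⟩ := Finset.exists_min_image
          (P.filter fun C => F C ∧ (nb G S C).Nonempty) (fun C => (nb G S C).card) (by
            obtain ⟨C, h1, h2⟩ := hex
            exact ⟨C, Finset.mem_filter.2 ⟨h1, h2⟩⟩)
        obtain ⟨h0P, h0F, a, ha⟩ := Finset.mem_filter.1 h0
        refine ⟨a, (mem_nb.1 ha).1, fun C hCP hCF hCne => ?_⟩
        rcases hchain C0 h0P C hCP h0F hCF with h | h
        · exact h ha
        · have h1 := hmin C (Finset.mem_filter.2 ⟨hCP, hCF, hCne⟩)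
          rw [Finset.eq_of_subset_of_card_le h h1]
          exact ha
      · obtain ⟨a, ha⟩ := hSne
        exact ⟨a, ha, fun C hCP hCF hCne => absurd ⟨C, hCP, hCF, hCne⟩ hex⟩
    obtain ⟨a, haS, ha⟩ := hchoice
    let P1 := P.filter fun C => F C ∧ nb G S C = ∅
    let P2 := P.filter fun C => ¬ (F C ∧ nb G S C = ∅)
    have hP : P1 ∪ P2 = P := Finset.filter_union_filter_not_eq _ P
    have hcard : (S.erase a).card = n := by rw [Finset.card_erase_of_mem haS]; omega
    have hZ : TD G (P1.biUnion id) D := by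
      refine TD.biUnion P1 (fun C h => ?_) fun C h C' h' => hpair C (Finset.mem_filter.1 h).1 C'
        (Finset.mem_filter.1 h').1
      rcases hC C (Finset.mem_filter.1 h).1 with h1 | ⟨_, h1⟩
      · exact h1.mono (Nat.sub_le _ _)
      · exact h1.mono (Nat.sub_le _ _)
    have hmain : TD G (S.erase a ∪ P2.biUnion id) (D - 1) := by
      refine ih (S.erase a) P2 (D - 1) (by omega) (fun C h => ?_) (fun C h C' h' => hpair C
        (Finset.mem_filter.1 h).1 C' (Finset.mem_filter.1 h').1) (fun C h => ?_)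
        (fun C h C' h' hF hF' => ?_) hcard
      · exact (hdis C (Finset.mem_filter.1 h).1).mono_right (Finset.erase_subset a S)
      · obtain ⟨hCP, hC2⟩ := Finset.mem_filter.1 h
        rcases hC C hCP with h1 | ⟨hF, h1⟩
        · left
          rw [hcard]
          have : D - 1 - n = D - S.card := by omega
          rw [this]
          exact h1
        · right
          refine ⟨hF, ?_⟩
          have hne : (nb G S C).Nonempty := by
            rw [Finset.nonempty_iff_ne_empty]
            exact fun he => hC2 ⟨hF, he⟩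
          have hac := ha C hCP hF hne
          rw [nb_erase, Finset.card_erase_of_mem hac]
          have h2 := Finset.card_pos.2 hne
          have : D - 1 - ((nb G S C).card - 1) = D - (nb G S C).card := by omega
          rw [this]
          exact h1
      · rw [nb_erase, nb_erase]
        rcases hchain C (Finset.mem_filter.1 h).1 C' (Finset.mem_filter.1 h').1 hF hF' with h1 | h1
        · exact Or.inl (Finset.erase_subset_erase a h1)
        · exact Or.inr (Finset.erase_subset_erase a h1)
    have haP : a ∉ P2.biUnion id := by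
      intro h
      obtain ⟨C, hC1, hC2⟩ := Finset.mem_biUnion.1 h
      exact (Finset.disjoint_left.1 (hdis C (Finset.mem_filter.1 hC1).1)) hC2 haS
    have herase : (S ∪ P2.biUnion id).erase a = S.erase a ∪ P2.biUnion id := by
      rw [Finset.erase_union_distrib, Finset.erase_eq_of_notMem haP]
    have hdel : TD G (S ∪ P2.biUnion id) D := by
      have h1 : TD G ((S ∪ P2.biUnion id).erase a) (D - 1) := by rw [herase]; exact hmain
      have h2 := TD.del a (Finset.mem_union_left _ haS) h1
      have h3 : D - 1 + 1 = D := by omega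
      rwa [h3] at h2
    have hfin := TD.union ?_ ?_ hdel hZ
    · have h4 : S ∪ P2.biUnion id ∪ P1.biUnion id = S ∪ P.biUnion id := by
        rw [Finset.union_assoc, ← hP, Finset.union_biUnion, Finset.union_comm (P2.biUnion id)]
      rwa [h4] at hfin
    · rw [Finset.disjoint_union_left, Finset.disjoint_biUnion_right, Finset.disjoint_biUnion_right]
      constructor
      · exact fun C h => (hdis C (Finset.mem_filter.1 h).1).symm
      · intro C' h'
        rw [Finset.disjoint_biUnion_left]
        intro C h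
        refine (hpair C (Finset.mem_filter.1 h).1 C' (Finset.mem_filter.1 h').1 ?_).1
        rintro rfl
        exact (Finset.mem_filter.1 h).2 (Finset.mem_filter.1 h').2
    · rintro ⟨x, hx, y, hy, hxy⟩
      obtain ⟨C', h', hy'⟩ := Finset.mem_biUnion.1 hy
      obtain ⟨h1', h2', h3'⟩ := Finset.mem_filter.1 h'
      rcases Finset.mem_union.1 hx with hx | hx
      · have : x ∈ nb G S C' := mem_nb.2 ⟨hx, y, hy', hxy⟩
        rw [h3'] at this
        exact Finset.notMem_empty x this
      · obtain ⟨C, h, hx'⟩ := Finset.mem_biUnion.1 hx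
        refine (hpair C (Finset.mem_filter.1 h).1 C' h1' ?_).2 ⟨x, hx', y, hy', hxy⟩
        rintro rfl
        exact (Finset.mem_filter.1 h).2 ⟨h2', h3'⟩

end

end Pool.Agent.H20.Tpf
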