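import Pool.Agent.H20.Tpf.Comp
import Pool.Agent.H20.Tpf.Count
import Pool.Agent.H20.Tpf.TDepth

/-! # Histories: decreasing sequences of regions with deleted blobs -/

set_option autoImplicit false
set_option linter.unusedSectionVars false
set_option linter.unusedVariables false

namespace Pool.Agent.H20.Tpf
open Finset

section
variable {V : Type} [Fintype V] [DecidableEq V] {G : SimpleGraph V}

/-- a decreasing sequence of regions `Rt 0 ⊇ ... ⊇ Rt N`; the blob `B i` is deleted from `Rt i` -/
structure Hist (G : SimpleGraph V) (K N : ℕ) (B Rt : ℕ → Finset V) : Prop where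
  sub : ∀ i j, i ≤ j → j ≤ N → Rt j ⊆ Rt i
  bsub : ∀ i < N, B i ⊆ Rt i
  bdis : ∀ i j, i < j → j ≤ N → Disjoint (B i) (Rt j)
  sep : ∀ i j, i ≤ j → j ≤ N → ∀ x ∈ Rt i, ∀ y ∈ Rt j, G.Adj x y →
    x ∈ Rt j ∨ ∃ i', i ≤ i' ∧ i' < j ∧ x ∈ B i'
  deg : ∀ j ≤ N, {i | i < j ∧ Touch G (B i) (Rt j)}.ncard ≤ K

lemma Touch.mono {A B A' B' : Finset V} (h : Touch G A B) (hA : A ⊆ A') (hB : B ⊆ B') :
    Touch G A' B' := by
  obtain ⟨x, hx, y, hy, hxy⟩ := h
  exact ⟨x, hA hx, y, hB hy, hxy⟩

/-- the relation used for counting -/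
def HE (G : SimpleGraph V) (N : ℕ) (B Rt : ℕ → Finset V) (i j : ℕ) : Prop :=
  j ≤ N ∧ Touch G (B i) (Rt j)

lemma Reach.succ {E : ℕ → ℕ → Prop} : ∀ {r j i : ℕ}, Reach E r j i → Reach E (r + 1) j i := by
  intro r
  induction r with
  | zero => intro j i h; exact h.elim
  | succ r ih =>
    intro j i h
    rcases h with h | ⟨c, c1, c2, c3, c4⟩
    · exact Or.inl h
    · exact Or.inr ⟨c, c1, c2, c3, ih c4⟩

lemma Reach.mono {E : ℕ → ℕ → Prop} {r s j i : ℕ} (h : Reach E r j i) (hrs : r ≤ s) :
    Reach E s j i := by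
  induction hrs with
  | refl => exact h
  | step _ ih => exact ih.succ

lemma Hist.chain {K N : ℕ} {B Rt : ℕ → Finset V} (H : Hist G K N B Rt) {i : ℕ} (hi : i < N)
    {x b : V} (w : (res G (Rt i)).Walk x b) (hb : b ∈ B i) :
    ∀ j, i < j → j ≤ N → x ∈ Rt j → Reach (HE G N B Rt) w.length j i := by
  induction w with
  | nil =>
    intro j hij hjN hx
    exact absurd hx (disjoint_left.1 (H.bdis i j hij hjN) hb)
  | @cons x y z hxy p ih =>
    intro j hij hjN hx
    rw [SimpleGraph.Walk.length_cons]
    rcases H.sep i j hij.le hjN y hxy.2.2 x hx hxy.1.symm with h | ⟨i', h1, h2, h3⟩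
    · exact (ih hb j hij hjN h).succ
    · have ht : HE G N B Rt i' j := ⟨hjN, y, h3, x, hx, hxy.1.symm⟩
      rcases Nat.lt_or_ge i i' with h4 | h4
      · right
        exact ⟨i', h4, h2, ht, ih hb i' h4 (by omega) (H.bsub i' (by omega) h3)⟩
      · left
        have : i' = i := by omega
        subst this
        exact ⟨hij, ht⟩

lemma Hist.reach {K N : ℕ} {B Rt : ℕ → Finset V} (H : Hist G K N B Rt) {i : ℕ} (hi : i < N)
    {v b : V} {r : ℕ} (hb : b ∈ B i) (hv : v ∈ Rt N) (hn : Near G (Rt i) r v b) :
    Reach (HE G N B Rt) r N i := by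
  obtain ⟨w, hw⟩ := hn
  exact (H.chain hi w hb N hi le_rfl hv).mono hw

lemma Hist.count {K N : ℕ} {B Rt : ℕ → Finset V} (H : Hist G K N B Rt) (r : ℕ) :
    {i | i < N ∧ Reach (HE G N B Rt) r N i}.ncard + 1 ≤ (K + r).choose r := by
  have h := count_reach (E := HE G N B Rt) (by
    intro i j j' hij hjj' h
    exact ⟨hjj'.trans h.1, h.2.mono (Subset.refl _) (H.sub j j' hjj' h.1)⟩) r K 0 N (by
    intro j' _ hj'
    refine le_trans (Set.ncard_le_ncard ?_ ((Set.finite_Iio j').subset fun x hx => hx.1))
      (H.deg j' hj')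
    rintro i ⟨_, h1, h2⟩
    exact ⟨h1, h2.2⟩)
  simpa using h

lemma Hist.step {K N : ℕ} {B Rt B' Rt' : ℕ → Finset V} (H : Hist G K N B Rt)
    (hB : ∀ i < N, B' i = B i) (hRt : ∀ i ≤ N, Rt' i = Rt i)
    (hU : B' N ⊆ Rt N) (hR' : Rt' (N + 1) ⊆ Rt N) (hdis : Disjoint (B' N) (Rt' (N + 1)))
    (hsep : ∀ x ∈ Rt N, ∀ y ∈ Rt' (N + 1), G.Adj x y → x ∈ Rt' (N + 1) ∨ x ∈ B' N)
    (hdeg : {i | i < N + 1 ∧ Touch G (B' i) (Rt' (N + 1))}.ncard ≤ K) : Hist G K (N + 1) B' Rt' := by
  refine ⟨?_, ?_, ?_, ?_, ?_⟩
  · intro i j hij hj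
    rcases Nat.lt_or_ge N j with h | h
    · have : j = N + 1 := by omega
      subst this
      rcases Nat.lt_or_ge N i with h' | h'
      · have : i = N + 1 := by omega
        rw [this]
      · rw [hRt i h']
        exact hR'.trans (H.sub i N h' le_rfl)
    · rw [hRt i (by omega), hRt j h]
      exact H.sub i j hij h
  · intro i hi
    rw [hRt i (by omega)]
    rcases Nat.lt_or_ge i N with h | h
    · rw [hB i h]
      exact H.bsub i h
    · have : i = N := by omega
      subst this
      exact hU
  · intro i j hij hj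
    rcases Nat.lt_or_ge N j with h | h
    · have : j = N + 1 := by omega
      subst this
      rcases Nat.lt_or_ge i N with h' | h'
      · rw [hB i h']
        exact (H.bdis i N h' le_rfl).mono_right hR'
      · have : i = N := by omega
        subst this
        exact hdis
    · rw [hB i (by omega), hRt j h]
      exact H.bdis i j hij h
  · intro i j hij hj x hx y hy hxy
    rcases Nat.lt_or_ge N j with h | h
    · have : j = N + 1 := by omega
      subst this
      rcases Nat.lt_or_ge N i with h' | h'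
      · have : i = N + 1 := by omega
        subst this
        exact Or.inl hx
      · rw [hRt i h'] at hx
        rcases H.sep i N h' le_rfl x hx y (hR' hy) hxy with h1 | ⟨i', h1, h2, h3⟩
        · rcases hsep x h1 y hy hxy with h2 | h2
          · exact Or.inl h2
          · exact Or.inr ⟨N, h', by omega, h2⟩
        · exact Or.inr ⟨i', h1, by omega, by rw [hB i' h2]; exact h3⟩
    · rw [hRt i (by omega)] at hx
      rw [hRt j h] at hy ⊢
      rcases H.sep i j hij h x hx y hy hxy with h1 | ⟨i', h1, h2, h3⟩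
      · exact Or.inl h1
      · exact Or.inr ⟨i', h1, h2, by rw [hB i' (by omega)]; exact h3⟩
  · intro j hj
    rcases Nat.lt_or_ge N j with h | h
    · have : j = N + 1 := by omega
      subst this
      exact hdeg
    · have h1 : {i | i < j ∧ Touch G (B' i) (Rt' j)} = {i | i < j ∧ Touch G (B i) (Rt j)} := by
        ext i
        simp only [Set.mem_setOf_eq]
        constructor
        · rintro ⟨h2, h3⟩
          rw [hB i (by omega), hRt j h] at h3
          exact ⟨h2, h3⟩
        · rintro ⟨h2, h3⟩
          rw [hB i (by omega), hRt j h]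
          exact ⟨h2, h3⟩
      rw [h1]
      exact H.deg j h

/-- replace the last region by a union of components -/
lemma Hist.shrink {K N : ℕ} {B Rt Rt' : ℕ → Finset V} (H : Hist G K N B Rt)
    (hRt : ∀ i < N, Rt' i = Rt i) (hR' : Rt' N ⊆ Rt N)
    (hsep : ∀ x ∈ Rt N, ∀ y ∈ Rt' N, G.Adj x y → x ∈ Rt' N) : Hist G K N B Rt' := by
  have hsub : ∀ i ≤ N, Rt' i ⊆ Rt i := by
    intro i hi
    rcases Nat.lt_or_ge i N with h | h
    · rw [hRt i h]
    · have : i = N := by omega
      subst this
      exact hR'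
  refine ⟨?_, ?_, ?_, ?_, ?_⟩
  · intro i j hij hj
    rcases Nat.lt_or_ge i N with h | h
    · rw [hRt i h]
      exact (hsub j hj).trans (H.sub i j hij hj)
    · have : i = j := by omega
      rw [this]
  · intro i hi
    rw [hRt i hi]
    exact H.bsub i hi
  · intro i j hij hj
    exact (H.bdis i j hij hj).mono_right (hsub j hj)
  · intro i j hij hj x hx y hy hxy
    rcases Nat.lt_or_ge j N with h | h
    · rw [hRt i (by omega)] at hx
      rw [hRt j h] at hy ⊢
      exact H.sep i j hij hj x hx y hy hxy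
    · have : j = N := by omega
      subst this
      rcases H.sep i j hij hj x (hsub i hij hx) y (hsub j hj hy) hxy with h1 | h1
      · exact Or.inl (hsep x h1 y hy hxy)
      · exact Or.inr h1
  · intro j hj
    refine le_trans (Set.ncard_le_ncard ?_ ((Set.finite_Iio j).subset fun x hx => hx.1)) (H.deg j hj)
    rintro i ⟨h1, h2⟩
    exact ⟨h1, h2.mono (Subset.refl _) (hsub j hj)⟩

/-- delete the vertices of `W` one after the other -/
lemma Hist.dels {K N : ℕ} {B Rt : ℕ → Finset V} (H : Hist G K N B Rt) (W : Finset V) :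
    W ⊆ Rt N → {i | i < N ∧ Touch G (B i) (Rt N)}.ncard + W.card ≤ K →
    ∃ B' Rt' : ℕ → Finset V, (∀ i < N, B' i = B i) ∧ (∀ i ≤ N, Rt' i = Rt i) ∧
      (∀ i, N ≤ i → i < N + W.card → ∃ a ∈ W, B' i = {a} ∧ insert a (Rt N \ W) ⊆ Rt' i) ∧
      (∀ a ∈ W, ∃ i, N ≤ i ∧ i < N + W.card ∧ B' i = {a}) ∧ Rt' (N + W.card) = Rt N \ W ∧
      Hist G K (N + W.card) B' Rt' := by
  classical
  induction W using Finset.induction_on with
  | empty =>
    intro _ _
    refine ⟨B, Rt, fun _ _ => rfl, fun _ _ => rfl, ?_, ?_, by simp, by simpa using H⟩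
    · intro i h1 h2
      simp at h2
      omega
    · intro a ha
      simp at ha
  | @insert a W haW ih =>
    intro hW hK
    rw [card_insert_of_notMem haW] at hK ⊢
    obtain ⟨B1, R1, h1, h2, h3, h4, h5, h6⟩ := ih ((subset_insert _ _).trans hW) (by omega)
    set M := N + W.card with hM
    have haN : a ∈ Rt N := hW (mem_insert_self _ _)
    refine ⟨fun i => if i < M then B1 i else {a}, fun i => if i ≤ M then R1 i else
      Rt N \ insert a W, ?_, ?_, ?_, ?_, ?_, ?_⟩
    · intro i hi
      simp only
      rw [if_pos (by omega)]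
      exact h1 i hi
    · intro i hi
      simp only
      rw [if_pos (by omega)]
      exact h2 i hi
    · intro i hi hi'
      simp only
      rcases Nat.lt_or_ge i M with h | h
      · rw [if_pos h, if_pos h.le]
        obtain ⟨c, hc, h7, h8⟩ := h3 i hi h
        refine ⟨c, mem_insert_of_mem hc, h7, ?_⟩
        refine Subset.trans (insert_subset_insert _ ?_) h8
        exact sdiff_subset_sdiff (Subset.refl _) (subset_insert _ _)
      · have : i = M := by omega
        rw [if_neg (by omega), if_pos (by omega)]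
        refine ⟨a, mem_insert_self _ _, rfl, ?_⟩
        rw [this, h5]
        intro x hx
        rw [mem_insert, mem_sdiff, mem_insert] at hx
        rw [mem_sdiff]
        rcases hx with rfl | ⟨h8, h9⟩
        · exact ⟨haN, haW⟩
        · exact ⟨h8, fun h => h9 (Or.inr h)⟩
    · intro c hc
      rw [mem_insert] at hc
      rcases hc with rfl | hc
      · refine ⟨M, by omega, by omega, ?_⟩
        simp
      · obtain ⟨i, h7, h8, h9⟩ := h4 c hc
        refine ⟨i, h7, by omega, ?_⟩
        simp only
        rw [if_pos h8]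
        exact h9
    · simp only
      rw [if_neg (by omega)]
    · have hadd : N + (W.card + 1) = M + 1 := by omega
      rw [hadd]
      refine h6.step (fun i hi => if_pos hi) (fun i hi => if_pos hi) ?_ ?_ ?_ ?_ ?_
      · simp only [lt_irrefl, if_false]
        rw [h5, singleton_subset_iff, mem_sdiff]
        exact ⟨haN, haW⟩
      · rw [if_neg (by omega), h5]
        exact sdiff_subset_sdiff (Subset.refl _) (subset_insert _ _)
      · rw [if_neg (by omega), if_neg (by omega)]
        rw [disjoint_singleton_left, mem_sdiff]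
        exact fun h => h.2 (mem_insert_self _ _)
      · intro x hx y hy _
        rw [if_neg (by omega)] at hy ⊢
        rw [if_neg (by omega)]
        rw [h5, mem_sdiff] at hx
        rw [mem_sdiff, mem_insert, mem_singleton]
        tauto
      · rw [if_neg (by omega)]
        have hsub : {i | i < M + 1 ∧ Touch G (if i < M then B1 i else {a}) (Rt N \ insert a W)} ⊆
            {i | i < N ∧ Touch G (B i) (Rt N)} ∪ (Finset.Ico N (M + 1) : Finset ℕ) := by
          rintro i ⟨h7, h8⟩
          rcases Nat.lt_or_ge i N with h | h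
          · left
            rw [if_pos (by omega), h1 i h] at h8
            exact ⟨h, h8.mono (Subset.refl _) sdiff_subset⟩
          · right
            rw [coe_Ico]
            exact ⟨h, h7⟩
        have hfin : {i | i < N ∧ Touch G (B i) (Rt N)}.Finite :=
          (Set.finite_Iio N).subset fun x hx => hx.1
        refine le_trans (Set.ncard_le_ncard hsub (hfin.union (finite_toSet _))) ?_
        refine le_trans (Set.ncard_union_le _ _) ?_
        rw [Set.ncard_coe_finset, Nat.card_Ico]
        omega

end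

end Pool.Agent.H20.Tpf
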