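import Pool.Agent.H20.Tpf.Ext

/-! # The upper bound -/

set_option autoImplicit false
set_option linter.unusedSectionVars false
set_option linter.unusedVariables false

namespace Pool.Agent.H20.Tpf
open Finset

section
variable {V : Type} [Fintype V] [DecidableEq V] {G : SimpleGraph V}

lemma sdiff_parts {R S : Finset V} (hS : S ⊆ R) : S ∪ (parts G (R \ S)).biUnion id = R := by
  rw [parts_biUnion, union_sdiff_of_subset hS]

lemma part_card {R S C : Finset V} (hS : S ⊆ R) (hne : S.Nonempty) (hC : C ∈ parts G (R \ S)) :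
    C.card < R.card := by
  have h1 := card_le_card (parts_sub hC)
  have h2 := card_sdiff_of_subset hS
  have h3 := card_pos.2 hne
  have h4 := card_le_card hS
  omega

/-- the good case -/
theorem good_case {m k n N : ℕ} {B Rt : ℕ → Finset V} {gd : ℕ → Prop} {uid : ℕ → ℕ}
    (hf : IsEmpty (SimpleGraph.pathGraph (2 * m + 2) ↪g G))
    (htw : TW G k) (H : Hist G (2 * k + 1) N B Rt)
    (Q : Qual G m k ((2 * k + 1) * (2 * m + 1)) N B Rt gd uid) (hR : Conn G (Rt N))
    (hn : (Rt N).card ≤ n + 1)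
    (ih : ∀ (N : ℕ) (B Rt : ℕ → Finset V) (gd : ℕ → Prop) (uid : ℕ → ℕ),
      Hist G (2 * k + 1) N B Rt → Qual G m k ((2 * k + 1) * (2 * m + 1)) N B Rt gd uid →
      Conn G (Rt N) → (Rt N).card ≤ n → TD G (Rt N)
        (CB k m ((2 * k + 1) * (2 * m + 1)) + (2 * k + 1) * (2 * m + 1) - cost N B))
    {b : Finset V} (hbc : b.card ≤ k + 1)
    (hb : ∀ v ∈ Rt N, ∃ x ∈ b, x ∈ Rt N ∧ Near G (Rt N) (m - 1) v x) :
    TD G (Rt N) (CB k m ((2 * k + 1) * (2 * m + 1)) + (2 * k + 1) * (2 * m + 1) - cost N B) := by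
  classical
  set cg := (2 * k + 1) * (2 * m + 1) with hcg
  set R := Rt N with hRdef
  have hcost := cost_le H Q hR.1
  set F : Finset ℕ := (range N).filter (fun i => gd i ∧ Touch G (B i) R) with hF
  have hFc : F.card ≤ k := by
    have h := good_deg htw Q hR (fun j hj => H.sub j N hj le_rfl) H.bb
      (fun i hi => H.bdis i N hi le_rfl)
    have h2 : {i | i < N ∧ gd i ∧ Touch G (B i) (Rt N)} = (F : Set ℕ) := by
      ext i
      rw [hF]
      simp
      tauto
    rwa [h2, Set.ncard_coe_finset] at h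
  have hch : ∀ i ∈ F, ∃ y ∈ R, ∃ x ∈ B i, G.Adj x y := by
    intro i hi
    rw [hF, mem_filter] at hi
    obtain ⟨x, hx, y, hy, hxy⟩ := hi.2.2
    exact ⟨y, hy, x, hx, hxy⟩
  choose f hf1 hf2 using hch
  set Z : Finset V := (b ∩ R) ∪ F.attach.image (fun i => f i.1 i.2) with hZ
  have hZR : Z ⊆ R := by
    intro z hz
    rw [hZ, mem_union, mem_inter, mem_image] at hz
    rcases hz with hz | ⟨i, _, rfl⟩
    · exact hz.2
    · exact hf1 i.1 i.2
  have hZc : Z.card ≤ 2 * k + 1 := by
    have h1 : (b ∩ R).card ≤ k + 1 := (card_le_card inter_subset_left).trans hbc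
    have h2 : (F.attach.image (fun i => f i.1 i.2)).card ≤ k := by
      refine card_image_le.trans ?_
      rw [card_attach]
      exact hFc
    have h3 := card_union_le (b ∩ R) (F.attach.image (fun i => f i.1 i.2))
    rw [← hZ] at h3
    omega
  have hZne : Z.Nonempty := by
    obtain ⟨v, hv⟩ := hR.1
    obtain ⟨x, hx, hxR, _⟩ := hb v hv
    exact ⟨x, by rw [hZ, mem_union, mem_inter]; exact Or.inl ⟨hx, hxR⟩⟩
  obtain ⟨U, hUR, hZU, hUc, hUcard⟩ := exists_hub (t := 2 * m + 2) (by omega) hf hR hZR hZne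
  have hUcg : U.card ≤ cg := by
    refine hUcard.trans ?_
    rw [hcg, show 2 * m + 2 - 1 = 2 * m + 1 by omega]
    exact Nat.mul_le_mul_right _ hZc
  have hmain := td_chain (G := G) U (parts G (R \ U)) (CB k m cg + cg - cost N B) (by omega) (by
      intro C hC
      rw [disjoint_left]
      intro x hx
      exact (mem_sdiff.1 (parts_sub hC hx)).2) (fun C hC C' hC' hne => parts_pair hC hC' hne)
    (fun _ => False) (by
      intro C hC
      left
      obtain ⟨N', B', Rt', gd', uid', H', Q', hR', hc'⟩ := ext_good htw H Q (U := U) (C := C) hUR hUc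
        (parts_sub hC) (parts_conn hC) (fun x hx y hy hxy => parts_closed hC hy hx hxy.symm) hUcg
        (by
          intro v hv
          obtain ⟨x, hx, hxR, hn⟩ := hb v (mem_sdiff.1 (parts_sub hC hv)).1
          refine ⟨x, hZU ?_, hn⟩
          rw [hZ, mem_union, mem_inter]
          exact Or.inl ⟨hx, hxR⟩)
        (by
          intro i hi hg ht
          have hiF : i ∈ F := by
            rw [hF, mem_filter, mem_range]
            exact ⟨hi, hg, ht⟩
          obtain ⟨x, hx, hxy⟩ := hf2 i hiF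
          refine ⟨x, hx, f i hiF, hZU ?_, hxy⟩
          rw [hZ, mem_union, mem_image]
          exact Or.inr ⟨⟨i, hiF⟩, mem_attach _ _, rfl⟩)
      have h := ih N' B' Rt' gd' uid' H' Q' (by rw [hR']; exact parts_conn hC) (by
        rw [hR']
        have := part_card hUR hUc.1 hC
        omega)
      rw [hR', hc'] at h
      rw [Nat.sub_sub]
      exact h)
    (by
      intro C _ C' _ h
      exact h.elim)
  rwa [sdiff_parts hUR] at hmain

/-- the bad case -/
theorem bad_case {m k n N : ℕ} {B Rt : ℕ → Finset V} {gd : ℕ → Prop} {uid : ℕ → ℕ} (hm : 1 ≤ m)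
    (hf : IsEmpty (SimpleGraph.pathGraph (2 * m + 2) ↪g G))
    (htw : TW G k) (H : Hist G (2 * k + 1) N B Rt)
    (Q : Qual G m k ((2 * k + 1) * (2 * m + 1)) N B Rt gd uid) (hR : Conn G (Rt N))
    (hn : (Rt N).card ≤ n + 1)
    (ih : ∀ (N : ℕ) (B Rt : ℕ → Finset V) (gd : ℕ → Prop) (uid : ℕ → ℕ),
      Hist G (2 * k + 1) N B Rt → Qual G m k ((2 * k + 1) * (2 * m + 1)) N B Rt gd uid →
      Conn G (Rt N) → (Rt N).card ≤ n → TD G (Rt N)
        (CB k m ((2 * k + 1) * (2 * m + 1)) + (2 * k + 1) * (2 * m + 1) - cost N B))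
    {v1 v2 : V} (hv1 : v1 ∈ Rt N) (hv2 : v2 ∈ Rt N) {A : Finset V} (hAc : A.card ≤ k + 1)
    (hA1 : Disjoint A (ball G (Rt N) (m - 1) v1)) (hA2 : Disjoint A (ball G (Rt N) (m - 1) v2))
    (hA : ∀ D : Finset V, Conn G D → (D ∩ ball G (Rt N) (m - 1) v1).Nonempty →
      (D ∩ ball G (Rt N) (m - 1) v2).Nonempty → (D ∩ A).Nonempty) :
    TD G (Rt N) (CB k m ((2 * k + 1) * (2 * m + 1)) + (2 * k + 1) * (2 * m + 1) - cost N B) := by
  classical
  set cg := (2 * k + 1) * (2 * m + 1) with hcg
  set R := Rt N with hRdef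
  have hcost := cost_le H Q hR.1
  set S : Finset V := A.filter (fun a => a ∈ R ∧ Near G R m a v1 ∧ Near G R m a v2) with hS
  have hSA : S ⊆ A := filter_subset _ _
  have hSR : S ⊆ R := by
    intro a ha
    rw [hS, mem_filter] at ha
    exact ha.2.1
  have hSk : S.card ≤ k + 1 := (card_le_card hSA).trans hAc
  have hcgk : k + 1 ≤ cg := by
    rw [hcg]
    nlinarith
  -- distance facts
  have far : ∀ v, Disjoint A (ball G R (m - 1) v) → ∀ a ∈ A, a ∈ R → ¬ Near G R (m - 1) v a := by
    intro v hd a ha haR hn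
    exact disjoint_left.1 hd ha (mem_ball.2 ⟨haR, hn⟩)
  have hvS : ∀ v ∈ R, Disjoint A (ball G R (m - 1) v) → v ∈ R \ S := by
    intro v hv hd
    rw [mem_sdiff]
    refine ⟨hv, fun h => ?_⟩
    exact far v hd v (hSA h) hv (Near.refl _ _ _)
  have hv1S := hvS v1 hv1 hA1
  have hv2S := hvS v2 hv2 hA2
  -- S separates
  have hsepS : v2 ∉ cmp G (R \ S) v1 := by
    intro h
    obtain ⟨p, hp⟩ := near_of_free (by omega) hf (mem_cmp.1 h).2
    have hsup : ∀ x ∈ p.support, x ∈ R \ S := fun x hx =>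
      reach_mem hv1S ⟨p.takeUntil x hx⟩
    have hconn : Conn G p.support.toFinset := by
      refine ⟨⟨v1, by simp⟩, ?_⟩
      have key : ∀ x ∈ p.support.toFinset, (res G p.support.toFinset).Reachable v1 x := by
        intro x hx
        rw [List.mem_toFinset] at hx
        obtain ⟨w', _⟩ := walk_in (Y := p.support.toFinset) (p.takeUntil x hx) (fun y hy => by
          rw [List.mem_toFinset]
          exact p.support_takeUntil_subset_support hx hy)
        exact ⟨w'⟩
      intro a ha b hb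
      exact (key a ha).symm.trans (key b hb)
    obtain ⟨a, ha⟩ := hA _ hconn ⟨v1, by
        rw [mem_inter]
        exact ⟨by simp, mem_ball.2 ⟨hv1, Near.refl _ _ _⟩⟩⟩ ⟨v2, by
        rw [mem_inter]
        exact ⟨by simp, mem_ball.2 ⟨hv2, Near.refl _ _ _⟩⟩⟩
    rw [mem_inter, List.mem_toFinset] at ha
    obtain ⟨hap, haA⟩ := ha
    have haR := hsup a hap
    rw [mem_sdiff] at haR
    have hlen : (p.takeUntil a hap).length + (p.dropUntil a hap).length = p.length := by
      rw [← SimpleGraph.Walk.length_append, SimpleGraph.Walk.take_spec]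
    have hRS : R \ S ⊆ R := sdiff_subset
    have h1 : m ≤ (p.takeUntil a hap).length := by
      by_contra hcon
      refine far v1 hA1 a haA haR.1 ?_
      exact Near.mono (X := R \ S) ⟨p.takeUntil a hap, by omega⟩ hRS le_rfl
    have h2 : m ≤ (p.dropUntil a hap).length := by
      by_contra hcon
      refine far v2 hA2 a haA haR.1 ?_
      exact (Near.mono (X := R \ S) ⟨p.dropUntil a hap, by omega⟩ hRS le_rfl).symm
    refine haR.2 ?_
    rw [hS, mem_filter]
    refine ⟨haA, haR.1, ?_, ?_⟩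
    · exact (Near.mono (X := R \ S) ⟨p.takeUntil a hap, by omega⟩ hRS le_rfl).symm
    · exact Near.mono (X := R \ S) ⟨p.dropUntil a hap, by omega⟩ hRS le_rfl
  have hSne : S.Nonempty := by
    rw [nonempty_iff_ne_empty]
    intro h
    refine hsepS ?_
    rw [h, sdiff_empty, mem_cmp]
    exact ⟨hv2, hR.2 v1 hv1 v2 hv2⟩
  -- the two full components
  have full : ∀ v ∈ R, Disjoint A (ball G R (m - 1) v) → (∀ a ∈ S, Near G R m a v) → ∀ a ∈ S,
      ∃ y ∈ cmp G (R \ S) v, G.Adj a y := by
    intro v hv hd hnr a ha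
    obtain ⟨p, hp⟩ := (hnr a ha).symm
    have haY : a ∉ ball G R (m - 1) v := fun h => disjoint_left.1 hd (hSA ha) h
    obtain ⟨x, y, hx, hy, hyY, hxy, q, q', hq⟩ := exit (mem_ball.2 ⟨hv, Near.refl _ _ _⟩) haY p
    have hsubR : ball G R (m - 1) v ⊆ R := fun z hz => (mem_ball.1 hz).1
    have h1 : m ≤ q.length + 1 := by
      by_contra hcon
      refine hyY (mem_ball.2 ⟨hy, ?_⟩)
      have h2 : Near G R q.length v x := Near.mono (X := ball G R (m - 1) v) ⟨q, le_rfl⟩ hsubR le_rfl
      exact (h2.trans (near_of_adj hxy (hsubR hx) hy)).mono (Subset.refl _) (by omega)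
    have h2 : q'.length = 0 := by omega
    have h3 : y = a := SimpleGraph.Walk.eq_of_length_eq_zero h2
    subst h3
    refine ⟨x, ?_, hxy.symm⟩
    have hsub : ball G R (m - 1) v ⊆ R \ S := by
      intro z hz
      rw [mem_sdiff]
      exact ⟨hsubR hz, fun h => disjoint_left.1 hd (hSA h) hz⟩
    rw [mem_cmp]
    exact ⟨hsub hx, SimpleGraph.Reachable.mono (res_mono hsub) ⟨q⟩⟩
  have hn1 : ∀ a ∈ S, Near G R m a v1 := fun a ha => (mem_filter.1 ha).2.2.1
  have hn2 : ∀ a ∈ S, Near G R m a v2 := fun a ha => (mem_filter.1 ha).2.2.2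
  have full1 := full v1 hv1 hA1 hn1
  have full2 := full v2 hv2 hA2 hn2
  set C1 := cmp G (R \ S) v1 with hC1
  set C2 := cmp G (R \ S) v2 with hC2
  have hC1P : C1 ∈ parts G (R \ S) := mem_parts.2 ⟨v1, hv1S, rfl⟩
  have hC2P : C2 ∈ parts G (R \ S) := mem_parts.2 ⟨v2, hv2S, rfl⟩
  have hv1C : v1 ∈ C1 := self_mem_cmp hv1S
  have hv2C : v2 ∈ C2 := self_mem_cmp hv2S
  have hC12 : C1 ≠ C2 := fun h => hsepS (by rw [h]; exact hv2C)
  have notS : ∀ C ∈ parts G (R \ S), ∀ a ∈ S, a ∉ C := fun C hC a ha h =>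
    (mem_sdiff.1 (parts_sub hC h)).2 ha
  -- tails
  have tail_aux : ∀ v ∈ R, Disjoint A (ball G R (m - 1) v) → ∀ C0 ∈ parts G (R \ S), v ∈ C0 →
      (∀ a ∈ S, ∃ y ∈ C0, G.Adj a y) → ∀ C ∈ parts G (R \ S), C ≠ C0 → ∀ a ∈ S, Tail G m a C := by
    intro v hv hd C0 hC0 hvC0 hfull C hC hne a ha
    obtain ⟨h1, h2⟩ := parts_pair hC0 hC hne.symm
    obtain ⟨y, hy, hay⟩ := hfull a ha
    refine ⟨C0, v, hvC0, notS C0 hC0 a ha, h1, h2, (parts_conn hC0).reach_insert hy hay hvC0, ?_⟩
    intro hnr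
    refine far v hd a (hSA ha) (hSR ha) ?_
    refine (hnr.mono ?_ le_rfl).symm
    rw [insert_subset_iff]
    exact ⟨hSR ha, (parts_sub hC0).trans sdiff_subset⟩
  have tails : ∀ C ∈ parts G (R \ S), ∀ a ∈ S, Tail G m a C := by
    intro C hC a ha
    by_cases h : C = C1
    · exact tail_aux v2 hv2 hA2 C2 hC2P hv2C full2 C hC (by rw [h]; exact hC12) a ha
    · exact tail_aux v1 hv1 hA1 C1 hC1P hv1C full1 C hC h a ha
  -- degrees
  have bdeg : ∀ W ⊆ S, {i | i < N ∧ ¬ gd i ∧ Touch G (B i) (Rt N)}.ncard + W.card ≤ k + 1 := by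
    intro W hW
    set F2 : Finset ℕ := (range N).filter (fun i => ¬ gd i ∧ Touch G (B i) (Rt N)) with hF2
    have hm2 : ∀ i, i ∈ F2 → i < N ∧ ¬ gd i ∧ Touch G (B i) (Rt N) := by
      intro i hi
      rwa [hF2, mem_filter, mem_range] at hi
    have h2 : {i | i < N ∧ ¬ gd i ∧ Touch G (B i) (Rt N)} = (F2 : Set ℕ) := by
      ext i
      rw [hF2]
      simp
    rw [h2, Set.ncard_coe_finset]
    have h3 : (F2.biUnion B).card = F2.card := by
      rw [card_biUnion]
      · rw [card_eq_sum_ones]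
        refine sum_congr rfl ?_
        intro i hi
        obtain ⟨a, ha⟩ := Q.bcard i (hm2 i hi).1 (hm2 i hi).2.1
        rw [ha, card_singleton]
      · intro i hi j hj hij
        rcases Nat.lt_or_ge i j with h | h
        · exact H.bb i j h (hm2 j hj).1
        · exact (H.bb j i (by omega) (hm2 i hi).1).symm
    have h4 : Disjoint (F2.biUnion B) W := by
      rw [disjoint_biUnion_left]
      intro i hi
      exact (H.bdis i N (hm2 i hi).1 le_rfl).mono_right (hW.trans hSR)
    have h5 : F2.biUnion B ∪ W ⊆ A := by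
      intro a ha
      rw [mem_union, mem_biUnion] at ha
      rcases ha with ⟨i, hi, ha⟩ | ha
      · obtain ⟨h6, h7, h8⟩ := hm2 i hi
        obtain ⟨c, hc⟩ := Q.bcard i h6 h7
        have hac : a = c := by
          rw [hc, mem_singleton] at ha
          exact ha
        subst hac
        refine bad_in_A hm hf hR (fun h => disjoint_left.1 (H.bdis i N h6 le_rfl) ha h) ?_
          (Q.btail i h6 h7 a ha h8) hv1 hv2 hA1 hA2 hA
        obtain ⟨x, hx, y, hy, hxy⟩ := h8
        rw [hc, mem_singleton] at hx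
        subst hx
        exact ⟨y, hy, hxy⟩
      · exact hSA (hW ha)
    have h6 := card_le_card h5
    rw [card_union_of_disjoint h4, h3] at h6
    omega
  have gdeg := good_deg htw Q hR (fun j hj => H.sub j N hj le_rfl) H.bb
      (fun i hi => H.bdis i N hi le_rfl)
  have deg : ∀ W ⊆ S, {i | i < N ∧ Touch G (B i) (Rt N)}.ncard + W.card ≤ 2 * k + 1 := by
    intro W hW
    have h1 := bdeg W hW
    have h3 : {i | i < N ∧ Touch G (B i) (Rt N)} ⊆ {i | i < N ∧ gd i ∧ Touch G (B i) (Rt N)} ∪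
        {i | i < N ∧ ¬ gd i ∧ Touch G (B i) (Rt N)} := by
      rintro i ⟨h4, h5⟩
      by_cases h : gd i
      · exact Or.inl ⟨h4, h, h5⟩
      · exact Or.inr ⟨h4, h, h5⟩
    have hfi : ({i | i < N ∧ gd i ∧ Touch G (B i) (Rt N)} ∪
        {i | i < N ∧ ¬ gd i ∧ Touch G (B i) (Rt N)}).Finite :=
      (Set.finite_Iio N).subset (by
        rintro x (hx | hx)
        · exact hx.1
        · exact hx.1)
    have h4 := (Set.ncard_le_ncard h3 hfi).trans (Set.ncard_union_le _ _)
    omega
  have stepW : ∀ C ∈ parts G (R \ S), ∀ W ⊆ S, (∀ x ∈ R \ W, ∀ y ∈ C, G.Adj x y → x ∈ C) →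
      (∀ v ∈ C, (∀ a ∈ W, Near G (insert a C) m v a) ∨
        ∃ a ∈ W, Near G (insert a C) (m - 1) v a) →
      TD G C (CB k m cg + cg - cost N B - W.card) := by
    intro C hC W hW hsep hN
    obtain ⟨N', B', Rt', gd', uid', H', Q', hR', hc'⟩ := ext_bad H Q (W := W) (C := C)
      (hW.trans hSR) ((parts_sub hC).trans (sdiff_subset_sdiff (Subset.refl _) hW)) hsep (deg W hW)
      (bdeg W hW) (fun a ha _ => tails C hC a (hW ha)) hN
    have h := ih N' B' Rt' gd' uid' H' Q' (by rw [hR']; exact parts_conn hC) (by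
      rw [hR']
      have := part_card hSR hSne hC
      omega)
    rw [hR', hc'] at h
    rw [Nat.sub_sub]
    exact h
  have hmain := td_chain (G := G) S (parts G (R \ S)) (CB k m cg + cg - cost N B) (by omega) (by
      intro C hC
      rw [disjoint_left]
      intro x hx
      exact (mem_sdiff.1 (parts_sub hC hx)).2) (fun C hC C' hC' hne => parts_pair hC hC' hne)
    (fun C => ∃ v ∈ C, ∀ a ∈ nb G S C, ¬ Near G (insert a C) (m - 1) v a) (by
      intro C hC
      by_cases hF : ∃ v ∈ C, ∀ a ∈ nb G S C, ¬ Near G (insert a C) (m - 1) v a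
      · right
        refine ⟨hF, ?_⟩
        refine stepW C hC (nb G S C) (fun a ha => (mem_nb.1 ha).1) ?_ ?_
        · intro x hx y hy hxy
          rw [mem_sdiff] at hx
          by_cases hxS : x ∈ S
          · exact absurd (mem_nb.2 ⟨hxS, y, hy, hxy⟩) hx.2
          · exact parts_closed hC hy (mem_sdiff.2 ⟨hx.1, hxS⟩) hxy.symm
        · intro v hv
          left
          intro a ha
          obtain ⟨haS, y, hy, hay⟩ := mem_nb.1 ha
          exact (tail_dist hm hf (tails C hC a haS) (notS C hC a haS) hv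
            ((parts_conn hC).reach_insert hy hay hv)).symm
      · left
        push Not at hF
        refine stepW C hC S (Subset.refl _) ?_ ?_
        · intro x hx y hy hxy
          exact parts_closed hC hy hx hxy.symm
        · intro v hv
          right
          obtain ⟨a, ha, hn⟩ := hF v hv
          exact ⟨a, (mem_nb.1 ha).1, hn⟩)
    (by
      rintro C hC C' hC' ⟨w, hw, hwd⟩ ⟨w', hw', hwd'⟩
      by_contra hcon
      push Not at hcon
      rw [not_subset, not_subset] at hcon
      obtain ⟨⟨a, ha, ha'⟩, b, hb, hb'⟩ := hcon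
      obtain ⟨haS, y, hy, hay⟩ := mem_nb.1 ha
      obtain ⟨hbS, z, hz, hbz⟩ := mem_nb.1 hb
      have hne : C ≠ C' := by
        rintro rfl
        exact ha' ha
      have h1 : C ≠ C1 := by
        rintro rfl
        exact hb' (mem_nb.2 ⟨hbS, full1 b hbS⟩)
      have h2 : C' ≠ C1 := by
        rintro rfl
        exact ha' (mem_nb.2 ⟨haS, full1 a haS⟩)
      obtain ⟨d12, t12⟩ := parts_pair hC hC' hne
      obtain ⟨d1, t1⟩ := parts_pair hC hC1P h1
      obtain ⟨d2, t2⟩ := parts_pair hC' hC1P h2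
      obtain ⟨y1, hy1, hay1⟩ := full1 a haS
      obtain ⟨z1, hz1, hbz1⟩ := full1 b hbS
      have hab : a ≠ b := by
        rintro rfl
        exact ha' hb
      refine nested hm hf hab d12 d1 d2 t12 t1 t2 (notS C hC a haS) (notS C' hC' a haS)
        (notS C1 hC1P a haS) (notS C hC b hbS) (notS C' hC' b hbS) (notS C1 hC1P b hbS) hw hw'
        ((parts_conn hC).reach_insert hy hay hw).symm
        ((parts_conn hC').reach_insert hz hbz hw').symm ?_ ?_ ?_ (hwd a ha) (hwd' b hb)
      · have e1 : (res G (insert a (insert b C1))).Adj a y1 :=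
          ⟨hay1, mem_insert_self _ _, mem_insert_of_mem (mem_insert_of_mem hy1)⟩
        have e2 : (res G (insert a (insert b C1))).Adj b z1 :=
          ⟨hbz1, mem_insert_of_mem (mem_insert_self _ _), mem_insert_of_mem (mem_insert_of_mem hz1)⟩
        refine e1.reachable.trans (((parts_conn hC1P).2 y1 hy1 z1 hz1).mono (res_mono ?_) |>.trans
          e2.reachable.symm)
        exact (subset_insert _ _).trans (subset_insert _ _)
      · intro x hx hxb
        exact hb' (mem_nb.2 ⟨hbS, x, hx, hxb.symm⟩)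
      · intro x hx hxa
        exact ha' (mem_nb.2 ⟨haS, x, hx, hxa.symm⟩))
  rwa [sdiff_parts hSR] at hmain

theorem main_ind {m k : ℕ} (hm : 1 ≤ m) (hf : IsEmpty (SimpleGraph.pathGraph (2 * m + 2) ↪g G))
    (htw : TW G k) : ∀ (n N : ℕ) (B Rt : ℕ → Finset V) (gd : ℕ → Prop) (uid : ℕ → ℕ),
      Hist G (2 * k + 1) N B Rt → Qual G m k ((2 * k + 1) * (2 * m + 1)) N B Rt gd uid →
      Conn G (Rt N) → (Rt N).card ≤ n → TD G (Rt N)
        (CB k m ((2 * k + 1) * (2 * m + 1)) + (2 * k + 1) * (2 * m + 1) - cost N B) := by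
  classical
  intro n
  induction n with
  | zero =>
    intro N B Rt gd uid H Q hR hn
    have := card_pos.2 hR.1
    omega
  | succ n ih =>
    intro N B Rt gd uid H Q hR hn
    obtain ⟨bags, _, hbc, _, _, helly, hsep⟩ := id htw
    by_cases hcase : ∃ b ∈ bags, ∀ v ∈ Rt N, ∃ x ∈ b, x ∈ Rt N ∧ Near G (Rt N) (m - 1) v x
    · obtain ⟨b, hb, hb'⟩ := hcase
      exact good_case hf htw H Q hR hn ih (hbc b hb) hb'
    · have h1 : ∃ v1 ∈ Rt N, ∃ v2 ∈ Rt N, ∀ b ∈ bags, ¬ ((b ∩ ball G (Rt N) (m - 1) v1).Nonempty ∧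
          (b ∩ ball G (Rt N) (m - 1) v2).Nonempty) := by
        by_contra hcon
        push Not at hcon
        refine hcase ?_
        obtain ⟨b, hb, hb'⟩ := helly ((Rt N).image (ball G (Rt N) (m - 1))) (by
            intro C hC
            rw [mem_image] at hC
            obtain ⟨v, hv, rfl⟩ := hC
            exact conn_ball hv) (by
            intro C hC C' hC'
            rw [mem_image] at hC hC'
            obtain ⟨v, hv, rfl⟩ := hC
            obtain ⟨v', hv', rfl⟩ := hC'
            exact hcon v hv v' hv')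
        refine ⟨b, hb, fun v hv => ?_⟩
        obtain ⟨x, hx⟩ := hb' _ (mem_image_of_mem _ hv)
        rw [mem_inter, mem_ball] at hx
        exact ⟨x, hx.1, hx.2.1, hx.2.2⟩
      obtain ⟨v1, hv1, v2, hv2, h2⟩ := h1
      obtain ⟨A, hAc, hA1, hA2, hA⟩ := hsep _ _ (conn_ball hv1) (conn_ball hv2) h2
      exact bad_case hm hf htw H Q hR hn ih hv1 hv2 hAc hA1 hA2 hA

theorem td_univ {m k : ℕ} (hm : 1 ≤ m) (hf : IsEmpty (SimpleGraph.pathGraph (2 * m + 2) ↪g G))
    (htw : TW G k) : TD G univ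
      (CB k m ((2 * k + 1) * (2 * m + 1)) + (2 * k + 1) * (2 * m + 1)) := by
  classical
  have hmain := td_chain (G := G) ∅ (parts G univ)
    (CB k m ((2 * k + 1) * (2 * m + 1)) + (2 * k + 1) * (2 * m + 1)) (by simp) (by simp)
    (fun C hC C' hC' hne => parts_pair hC hC' hne) (fun _ => False) (by
      intro C hC
      left
      have h := main_ind hm hf htw C.card 0 (fun _ => ∅) (fun _ => C) (fun _ => True) (fun _ => 0)
        (by
          refine ⟨?_, ?_, ?_, ?_, ?_⟩
          · intro i j _ _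
            exact Subset.refl _
          · intro i hi
            omega
          · intro i j hij hj
            omega
          · intro i j _ _ x hx _ _ _
            exact Or.inl hx
          · intro j hj
            have : {i | i < j ∧ Touch G (∅ : Finset V) C} = ∅ := by
              ext i
              simp
              omega
            rw [this]
            simp)
        (by
          refine ⟨?_, ?_, ?_, ?_, ?_, ?_, ?_, ?_, ?_, ?_⟩ <;> simp)
        (parts_conn hC) le_rfl
      simpa [cost] using h) (by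
      intro C _ C' _ h
      exact h.elim)
  rw [empty_union, parts_biUnion] at hmain
  exact hmain

end

end Pool.Agent.H20.Tpf
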