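import Pool.Agent.H20.Tpf.Hist

/-! # Good and bad blobs and the cost of a history -/

set_option autoImplicit false
set_option linter.unusedSectionVars false
set_option linter.unusedVariables false

namespace Pool.Agent.H20.Tpf
open Finset

section
variable {V : Type} [Fintype V] [DecidableEq V] {G : SimpleGraph V}

/-- the invariants of good blobs (hubs) and bad blobs (single vertices, grouped in units) -/
structure Qual (G : SimpleGraph V) (m k cg N : ℕ) (B Rt : ℕ → Finset V) (gd : ℕ → Prop)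
    (uid : ℕ → ℕ) : Prop where
  gconn : ∀ i < N, gd i → Conn G (B i)
  gtouch : ∀ i j, i < j → j < N → gd i → gd j → Touch G (B i) (Rt j) → Touch G (B i) (B j)
  gcard : ∀ i < N, gd i → (B i).card ≤ cg
  gnear : ∀ i < N, gd i → ∀ v ∈ Rt N, ∃ b ∈ B i, Near G (Rt i) (m - 1) v b
  bcard : ∀ i < N, ¬ gd i → ∃ a, B i = {a}
  btail : ∀ i < N, ¬ gd i → ∀ a ∈ B i, Touch G (B i) (Rt N) → Tail G m a (Rt N)
  bnear : ∀ i < N, ¬ gd i → ∀ v ∈ Rt N, (∃ a ∈ B i, Near G (Rt i) m v a) ∨
    ∃ i' < N, ¬ gd i' ∧ uid i' = uid i ∧ ∃ a ∈ B i', Near G (Rt i') (m - 1) v a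
  bdeg : {i | i < N ∧ ¬ gd i ∧ Touch G (B i) (Rt N)}.ncard ≤ k + 1
  ucard : ∀ u, {i | i < N ∧ ¬ gd i ∧ uid i = u}.ncard ≤ k + 1
  ulow : ∀ i < N, ¬ gd i → uid i ≤ i

/-- the cost of a history -/
def cost (N : ℕ) (B : ℕ → Finset V) : ℕ := ∑ i ∈ range N, (B i).card

/-- the bound for the cost -/
def CB (k m cg : ℕ) : ℕ := (cg + (k + 1)) * (2 * k + 1 + (m - 1)).choose (m - 1) +
  (2 * k + 1 + m).choose m

theorem cost_le {m k cg N : ℕ} {B Rt : ℕ → Finset V} {gd : ℕ → Prop} {uid : ℕ → ℕ}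
    (H : Hist G (2 * k + 1) N B Rt) (Q : Qual G m k cg N B Rt gd uid) (hne : (Rt N).Nonempty) :
    cost N B ≤ CB k m cg := by
  classical
  obtain ⟨v, hv⟩ := hne
  set X1 : Finset ℕ := (range N).filter (fun i => Reach (HE G N B Rt) (m - 1) N i) with hX1
  set X2 : Finset ℕ := (range N).filter (fun i => Reach (HE G N B Rt) m N i) with hX2
  have c1 : X1.card ≤ (2 * k + 1 + (m - 1)).choose (m - 1) := by
    have h := H.count (m - 1)
    have h2 : {i | i < N ∧ Reach (HE G N B Rt) (m - 1) N i} = (X1 : Set ℕ) := by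
      ext i
      rw [hX1]
      simp
    rw [h2, Set.ncard_coe_finset] at h
    omega
  have c2 : X2.card ≤ (2 * k + 1 + m).choose m := by
    have h := H.count m
    have h2 : {i | i < N ∧ Reach (HE G N B Rt) m N i} = (X2 : Set ℕ) := by
      ext i
      rw [hX2]
      simp
    rw [h2, Set.ncard_coe_finset] at h
    omega
  set Gd : Finset ℕ := (range N).filter (fun i => gd i) with hGd
  set Bd : Finset ℕ := (range N).filter (fun i => ¬ gd i) with hBd
  have hG : Gd ⊆ X1 := by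
    intro i hi
    rw [hGd, mem_filter, mem_range] at hi
    rw [hX1, mem_filter, mem_range]
    obtain ⟨b, hb, hn⟩ := Q.gnear i hi.1 hi.2 v hv
    exact ⟨hi.1, H.reach hi.1 hb hv hn⟩
  have hB : Bd ⊆ X2 ∪ X1.biUnion (fun i' => (range N).filter (fun i => ¬ gd i ∧ uid i = uid i')) := by
    intro i hi
    rw [hBd, mem_filter, mem_range] at hi
    rw [mem_union, mem_biUnion]
    rcases Q.bnear i hi.1 hi.2 v hv with ⟨a, ha, hn⟩ | ⟨i', h1, h2, h3, a, ha, hn⟩
    · left
      rw [hX2, mem_filter, mem_range]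
      exact ⟨hi.1, H.reach hi.1 ha hv hn⟩
    · right
      refine ⟨i', ?_, ?_⟩
      · rw [hX1, mem_filter, mem_range]
        exact ⟨h1, H.reach h1 ha hv hn⟩
      · rw [mem_filter, mem_range]
        exact ⟨hi.1, hi.2, h3.symm⟩
  have hBc : Bd.card ≤ X2.card + X1.card * (k + 1) := by
    refine (card_le_card hB).trans ((card_union_le _ _).trans (Nat.add_le_add_left ?_ _))
    refine card_biUnion_le_card_mul _ _ _ ?_
    intro i' _
    have h := Q.ucard (uid i')
    have h2 : {i | i < N ∧ ¬ gd i ∧ uid i = uid i'} =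
        ((range N).filter (fun i => ¬ gd i ∧ uid i = uid i') : Set ℕ) := by
      ext i
      simp
    rw [h2, Set.ncard_coe_finset] at h
    exact h
  have hsum : cost N B = ∑ i ∈ Gd, (B i).card + ∑ i ∈ Bd, (B i).card := by
    rw [cost, hGd, hBd, sum_filter_add_sum_filter_not]
  have hs1 : ∑ i ∈ Gd, (B i).card ≤ X1.card * cg := by
    refine (sum_le_card_nsmul Gd _ cg ?_).trans ?_
    · intro i hi
      rw [hGd, mem_filter, mem_range] at hi
      exact Q.gcard i hi.1 hi.2
    · rw [smul_eq_mul]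
      exact Nat.mul_le_mul_right _ (card_le_card hG)
  have hs2 : ∑ i ∈ Bd, (B i).card = Bd.card := by
    rw [card_eq_sum_ones]
    refine sum_congr rfl ?_
    intro i hi
    rw [hBd, mem_filter, mem_range] at hi
    obtain ⟨a, ha⟩ := Q.bcard i hi.1 hi.2
    rw [ha, card_singleton]
  rw [hsum, hs2, CB]
  have h1 : X1.card * cg + X1.card * (k + 1) ≤
      (cg + (k + 1)) * (2 * k + 1 + (m - 1)).choose (m - 1) := by
    rw [← Nat.mul_add, Nat.mul_comm]
    exact Nat.mul_le_mul_left _ c1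
  omega

end

end Pool.Agent.H20.Tpf
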