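import Pool.Agent.H20.Tpf.Defs

/-! # Tree decompositions: Helly property and separation (helper127)

The section `TreeLib` is copied from the library module `Pool.Graph.R_seed8.H46R3.TreeHelly`. -/

set_option autoImplicit false

namespace Pool.Agent.H20.Tpf
open Finset

namespace TreeLib

open SimpleGraph

variable {V : Type} {T : SimpleGraph V}

theorem walk_in_aux (A : Set V) {x y : A} (w : (T.induce A).Walk x y) :
    ∃ w' : T.Walk x.1 y.1, ∀ z ∈ w'.support, z ∈ A := by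
  induction w with
  | @nil u =>
    refine ⟨SimpleGraph.Walk.nil, ?_⟩
    intro z hz
    rw [SimpleGraph.Walk.support_nil, List.mem_singleton] at hz
    rw [hz]
    exact u.2
  | @cons u v w h p ih =>
    obtain ⟨w', hw'⟩ := ih
    have h' : T.Adj u.1 v.1 := h
    refine ⟨SimpleGraph.Walk.cons h' w', ?_⟩
    intro z hz
    rw [SimpleGraph.Walk.support_cons, List.mem_cons] at hz
    rcases hz with hz | hz
    · rw [hz]; exact u.2
    · exact hw' z hz

theorem walk_in (A : Set V) (hA : (T.induce A).Preconnected) {x y : V} (hx : x ∈ A) (hy : y ∈ A) :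
    ∃ w : T.Walk x y, ∀ z ∈ w.support, z ∈ A := by
  obtain ⟨w⟩ := hA ⟨x, hx⟩ ⟨y, hy⟩
  exact walk_in_aux A w

theorem helly_aux (hT : T.IsAcyclic) (A B C : Set V)
    (hB : (T.induce B).Preconnected) (hC : (T.induce C).Preconnected)
    {y : V} (hyB : y ∈ B) (hyC : y ∈ C) :
    ∀ {u z : V} (p : T.Walk u z), (∀ v ∈ p.support, v ∈ A ∧ (v ∈ B ∨ v ∈ C)) → u ∈ B → z ∈ C →
      ∃ v, v ∈ A ∧ v ∈ B ∧ v ∈ C := by
  intro u z p
  induction p with
  | nil =>
    intro h hu hz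
    exact ⟨_, (h _ (by simp)).1, hu, hz⟩
  | @cons u v z huv q ih =>
    intro h hu hz
    have hu' := h u (by simp)
    have hv' := h v (by simp)
    by_cases hvB : v ∈ B
    · exact ih (fun w hw => h w (by simp [hw])) hvB hz
    · have hvC : v ∈ C := hv'.2.resolve_left hvB
      by_cases huC : u ∈ C
      · exact ⟨u, hu'.1, hu, huC⟩
      · exfalso
        obtain ⟨w1, hw1⟩ := walk_in B hB hu hyB
        obtain ⟨w2, hw2⟩ := walk_in C hC hyC hvC
        have hbr := (isAcyclic_iff_forall_adj_isBridge.1 hT) huv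
        rw [isBridge_iff_forall_walk_mem_edges] at hbr
        have h1 := hbr (w1.append w2)
        rw [SimpleGraph.Walk.edges_append, List.mem_append] at h1
        rcases h1 with h1 | h1
        · exact hvB (hw1 _ (w1.snd_mem_support_of_mem_edges h1))
        · exact huC (hw2 _ (w2.fst_mem_support_of_mem_edges h1))

theorem helly (hT : T.IsAcyclic) (A B C : Set V) (hA : (T.induce A).Preconnected)
    (hB : (T.induce B).Preconnected) (hC : (T.induce C).Preconnected)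
    {x y z : V} (hxA : x ∈ A) (hxB : x ∈ B) (hyB : y ∈ B) (hyC : y ∈ C) (hzA : z ∈ A)
    (hzC : z ∈ C) : ∃ v, v ∈ A ∧ v ∈ B ∧ v ∈ C := by
  classical
  obtain ⟨w, hw⟩ := walk_in A hA hxA hzA
  obtain ⟨w1, hw1⟩ := walk_in B hB hxB hyB
  obtain ⟨w2, hw2⟩ := walk_in C hC hyC hzC
  have huniq : w.toPath = (w1.append w2).toPath :=
    ((isAcyclic_iff_subsingleton_path.1 hT) x z).elim _ _
  refine helly_aux hT A B C hB hC hyB hyC w.bypass ?_ hxB hzC
  intro v hv
  refine ⟨hw v (w.support_bypass_subset_support hv), ?_⟩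
  have h1 : v ∈ ((w1.append w2).toPath : T.Walk x z).support := by
    rw [← huniq]
    exact hv
  have h2 := (w1.append w2).support_bypass_subset_support h1
  rw [SimpleGraph.Walk.mem_support_append_iff] at h2
  rcases h2 with h2 | h2
  · exact Or.inl (hw1 v h2)
  · exact Or.inr (hw2 v h2)

end TreeLib

namespace T2

variable {n : ℕ} {T : SimpleGraph (Fin n)}

/-- walk-connected sets of nodes -/
def Cn (T : SimpleGraph (Fin n)) (S : Set (Fin n)) : Prop :=
  ∀ x ∈ S, ∀ y ∈ S, ∃ w : T.Walk x y, ∀ z ∈ w.support, z ∈ S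

theorem Cn.pre {S : Set (Fin n)} (h : Cn T S) : (T.induce S).Preconnected := by
  rintro ⟨x, hx⟩ ⟨y, hy⟩
  obtain ⟨w, hw⟩ := h x hx y hy
  exact ⟨w.induce S hw⟩

theorem Cn.of_pre {S : Set (Fin n)} (h : (T.induce S).Preconnected) : Cn T S := by
  intro x hx y hy
  exact TreeLib.walk_in S h hx hy

theorem Cn.inter (hT : T.IsAcyclic) {A B : Set (Fin n)} (hA : Cn T A) (hB : Cn T B) :
    Cn T (A ∩ B) := by
  classical
  intro x hx y hy
  obtain ⟨w1, hw1⟩ := hA x hx.1 y hy.1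
  obtain ⟨w2, hw2⟩ := hB x hx.2 y hy.2
  have huniq : w1.toPath = w2.toPath :=
    ((SimpleGraph.isAcyclic_iff_subsingleton_path.1 hT) x y).elim _ _
  refine ⟨w1.bypass, fun z hz => ⟨hw1 z (w1.support_bypass_subset_support hz), ?_⟩⟩
  have h1 : z ∈ (w2.toPath : T.Walk x y).support := by
    rw [← huniq]; exact hz
  exact hw2 z (w2.support_bypass_subset_support h1)

theorem helly3 (hT : T.IsAcyclic) {A B C : Set (Fin n)} (hA : Cn T A) (hB : Cn T B) (hC : Cn T C)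
    (hAB : (A ∩ B).Nonempty) (hBC : (B ∩ C).Nonempty) (hAC : (A ∩ C).Nonempty) :
    (A ∩ B ∩ C).Nonempty := by
  obtain ⟨x, hxA, hxB⟩ := hAB
  obtain ⟨y, hyB, hyC⟩ := hBC
  obtain ⟨z, hzA, hzC⟩ := hAC
  obtain ⟨v, h1, h2, h3⟩ := TreeLib.helly hT A B C hA.pre hB.pre hC.pre
    hxA hxB hyB hyC hzA hzC
  exact ⟨v, ⟨h1, h2⟩, h3⟩

theorem hellyF (hT : T.IsAcyclic) {ι : Type} [DecidableEq ι] (X : ι → Set (Fin n)) (F : Finset ι) :
    ∀ X0 : Set (Fin n), Cn T X0 → X0.Nonempty → (∀ i ∈ F, Cn T (X i)) →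
      (∀ i ∈ F, (X0 ∩ X i).Nonempty) → (∀ i ∈ F, ∀ j ∈ F, (X i ∩ X j).Nonempty) →
      ∃ v ∈ X0, ∀ i ∈ F, v ∈ X i := by
  induction F using Finset.induction_on with
  | empty =>
    intro X0 _ h0 _ _ _
    obtain ⟨v, hv⟩ := h0
    exact ⟨v, hv, by simp⟩
  | insert i F hi ih =>
    intro X0 hX0 _ hX h0 hp
    have hii := Finset.mem_insert_self i F
    obtain ⟨v, hv, hvF⟩ := ih (X0 ∩ X i) (hX0.inter hT (hX i hii)) (h0 i hii)
      (fun j hj => hX j (Finset.mem_insert_of_mem hj))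
      (fun j hj => helly3 hT hX0 (hX i hii) (hX j (Finset.mem_insert_of_mem hj)) (h0 i hii)
        (hp i hii j (Finset.mem_insert_of_mem hj)) (h0 j (Finset.mem_insert_of_mem hj)))
      (fun j hj l hl => hp j (Finset.mem_insert_of_mem hj) l (Finset.mem_insert_of_mem hl))
    refine ⟨v, hv.1, fun j hj => ?_⟩
    rcases Finset.mem_insert.1 hj with h | h
    · rw [h]; exact hv.2
    · exact hvF j h

/-- the last exit from `X` along a walk -/
theorem exit {X : Set (Fin n)} {u y : Fin n} (p : T.Walk u y) (hy : y ∉ X) :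
    (∀ z ∈ p.support, z ∉ X) ∨ ∃ (z0 z1 : Fin n) (q : T.Walk z1 y), T.Adj z0 z1 ∧ z0 ∈ X ∧
      ∀ z ∈ q.support, z ∉ X := by
  induction p with
  | nil => left; simpa using hy
  | @cons u v y h p ih =>
    rcases ih hy with h1 | h1
    · by_cases hu : u ∈ X
      · right; exact ⟨u, v, p, h, hu, h1⟩
      · left
        intro z hz
        rw [SimpleGraph.Walk.support_cons, List.mem_cons] at hz
        rcases hz with hz | hz
        · rw [hz]; exact hu
        · exact h1 z hz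
    · right; exact h1

/-- there is a walk avoiding the edge -/
def Av (T : SimpleGraph (Fin n)) (e : Sym2 (Fin n)) (a b : Fin n) : Prop :=
  ∃ w : T.Walk a b, e ∉ w.edges

theorem Av.symm {e : Sym2 (Fin n)} {a b : Fin n} (h : Av T e a b) : Av T e b a := by
  obtain ⟨w, hw⟩ := h
  exact ⟨w.reverse, by simpa using hw⟩

theorem Av.trans {e : Sym2 (Fin n)} {a b c : Fin n} (h : Av T e a b) (h' : Av T e b c) :
    Av T e a c := by
  obtain ⟨w, hw⟩ := h
  obtain ⟨w', hw'⟩ := h'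
  exact ⟨w.append w', by rw [SimpleGraph.Walk.edges_append, List.mem_append]; tauto⟩

theorem Cn.av {S : Set (Fin n)} (hS : Cn T S) {z0 z1 : Fin n} (hz : ¬ (z0 ∈ S ∧ z1 ∈ S))
    {a b : Fin n} (ha : a ∈ S) (hb : b ∈ S) : Av T s(z0, z1) a b := by
  obtain ⟨w, hw⟩ := hS a ha b hb
  exact ⟨w, fun h => hz ⟨hw _ (w.fst_mem_support_of_mem_edges h),
    hw _ (w.snd_mem_support_of_mem_edges h)⟩⟩

end T2

open T2

section
variable {V : Type} [Fintype V] [DecidableEq V] {G : SimpleGraph V}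

/-- T2 -/
theorem HasTW.tw {k : ℕ} (h : HasTW G k) : TW G k := by
  obtain ⟨n, T, B, hT, hcov, hedge, hconn, hcard⟩ := h
  have hne : Nonempty (Fin n) := hT.1.nonempty
  have hCn : ∀ v : V, Cn T {t : Fin n | v ∈ B t} := fun v => Cn.of_pre (hconn v).preconnected
  -- nodes meeting a set
  let X : Finset V → Set (Fin n) := fun C => {t | (B t ∩ C).Nonempty}
  have hmX : ∀ C t, t ∈ X C ↔ (B t ∩ C).Nonempty := fun _ _ => Iff.rfl
  have hwalk : ∀ (C : Finset V) {v1 v2 : V} (w : (res G C).Walk v1 v2), v1 ∈ C → v2 ∈ C →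
      ∀ t1 t2, v1 ∈ B t1 → v2 ∈ B t2 → ∃ p : T.Walk t1 t2, ∀ z ∈ p.support, z ∈ X C := by
    intro C v1 v2 w
    induction w with
    | nil =>
      intro h1 _ t1 t2 ht1 ht2
      obtain ⟨p, hp⟩ := hCn _ t1 ht1 t2 ht2
      exact ⟨p, fun z hz => ⟨_, Finset.mem_inter.2 ⟨hp z hz, h1⟩⟩⟩
    | @cons a b c hab w ih =>
      intro h1 h2 t1 t2 ht1 ht2
      obtain ⟨hadj, ha, hb⟩ := hab
      obtain ⟨t, hta, htb⟩ := hedge a b hadj
      obtain ⟨p, hp⟩ := hCn a t1 ht1 t hta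
      obtain ⟨q, hq⟩ := ih hb h2 t t2 htb ht2
      refine ⟨p.append q, fun z hz => ?_⟩
      rw [SimpleGraph.Walk.mem_support_append_iff] at hz
      rcases hz with hz | hz
      · exact ⟨a, Finset.mem_inter.2 ⟨hp z hz, ha⟩⟩
      · exact hq z hz
  have hXCn : ∀ C, Conn G C → Cn T (X C) := by
    intro C hC t1 ht1 t2 ht2
    obtain ⟨v1, hv1⟩ := ht1
    obtain ⟨v2, hv2⟩ := ht2
    rw [Finset.mem_inter] at hv1 hv2
    obtain ⟨w⟩ := hC.2 v1 hv1.2 v2 hv2.2
    exact hwalk C w hv1.2 hv2.2 t1 t2 hv1.1 hv2.1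
  have hXne : ∀ C, Conn G C → (X C).Nonempty := by
    intro C hC
    obtain ⟨v, hv⟩ := hC.1
    obtain ⟨t, ht⟩ := hcov v
    exact ⟨t, v, Finset.mem_inter.2 ⟨ht, hv⟩⟩
  refine ⟨univ.image B, ?_, ?_, ?_, ?_, ?_, ?_⟩
  · obtain ⟨t⟩ := hne
    exact ⟨B t, Finset.mem_image_of_mem _ (Finset.mem_univ _)⟩
  · intro b hb
    obtain ⟨t, -, rfl⟩ := Finset.mem_image.1 hb
    exact hcard t
  · intro v
    obtain ⟨t, ht⟩ := hcov v
    exact ⟨B t, Finset.mem_image_of_mem _ (Finset.mem_univ _), ht⟩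
  · intro u v huv
    obtain ⟨t, ht⟩ := hedge u v huv
    exact ⟨B t, Finset.mem_image_of_mem _ (Finset.mem_univ _), ht⟩
  · intro F hF hp
    rcases F.eq_empty_or_nonempty with hF0 | ⟨C0, hC0⟩
    · obtain ⟨t⟩ := hne
      refine ⟨B t, Finset.mem_image_of_mem _ (Finset.mem_univ _), ?_⟩
      rw [hF0]; simp
    · have hpair : ∀ C ∈ F, ∀ C' ∈ F, (X C ∩ X C').Nonempty := by
        intro C hC C' hC'
        obtain ⟨b, hb, h1, h2⟩ := hp C hC C' hC'
        obtain ⟨t, -, rfl⟩ := Finset.mem_image.1 hb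
        exact ⟨t, h1, h2⟩
      obtain ⟨t, -, ht⟩ := hellyF hT.isAcyclic X F (X C0) (hXCn C0 (hF C0 hC0))
        (hXne C0 (hF C0 hC0)) (fun C hC => hXCn C (hF C hC)) (fun C hC => hpair C0 hC0 C hC) hpair
      exact ⟨B t, Finset.mem_image_of_mem _ (Finset.mem_univ _), ht⟩
  · intro C C' hC hC' hno
    have hdis : ∀ t, t ∈ X C → t ∈ X C' → False := fun t h1 h2 =>
      hno (B t) (Finset.mem_image_of_mem _ (Finset.mem_univ _)) ⟨h1, h2⟩
    obtain ⟨x, hx⟩ := hXne C hC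
    obtain ⟨y, hy⟩ := hXne C' hC'
    obtain ⟨p⟩ := hT.1.preconnected x y
    rcases exit p (fun h => hdis y h hy) with h | ⟨z0, z1, q, hadj, hz0, hq⟩
    · exact absurd hx (h x p.start_mem_support)
    have hz1 : z1 ∉ X C := hq z1 q.start_mem_support
    refine ⟨B z0 ∩ B z1, le_trans (Finset.card_le_card Finset.inter_subset_left) (hcard z0),
      ?_, ?_, ?_⟩
    · rw [Finset.disjoint_left]
      intro v hv hvC
      exact hz1 ⟨v, Finset.mem_inter.2 ⟨(Finset.mem_inter.1 hv).2, hvC⟩⟩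
    · rw [Finset.disjoint_left]
      intro v hv hvC
      exact hdis z0 hz0 ⟨v, Finset.mem_inter.2 ⟨(Finset.mem_inter.1 hv).1, hvC⟩⟩
    · intro D hD hDC hDC'
      by_contra hDA
      have hDA' : ∀ v ∈ D, ¬ (v ∈ B z0 ∧ v ∈ B z1) := fun v hv h =>
        hDA ⟨v, Finset.mem_inter.2 ⟨hv, Finset.mem_inter.2 h⟩⟩
      -- all nodes of `D` are on one side
      have hside : ∀ {v1 v2 : V} (w : (res G D).Walk v1 v2), v1 ∈ D → v2 ∈ D →
          ∀ t1 t2, v1 ∈ B t1 → v2 ∈ B t2 → Av T s(z0, z1) t1 t2 := by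
        intro v1 v2 w
        induction w with
        | nil =>
          intro h1 _ t1 t2 ht1 ht2
          exact (hCn _).av (hDA' _ h1) ht1 ht2
        | @cons a b c hab w ih =>
          intro h1 h2 t1 t2 ht1 ht2
          obtain ⟨hadj, ha, hb⟩ := hab
          obtain ⟨t, hta, htb⟩ := hedge a b hadj
          exact ((hCn a).av (hDA' a ha) ht1 hta).trans (ih hb h2 t t2 htb ht2)
      obtain ⟨v1, hv1⟩ := hDC
      obtain ⟨v2, hv2⟩ := hDC'
      rw [Finset.mem_inter] at hv1 hv2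
      obtain ⟨t1, ht1⟩ := hcov v1
      obtain ⟨t2, ht2⟩ := hcov v2
      obtain ⟨w⟩ := hD.2 v1 hv1.1 v2 hv2.1
      have h12 := hside w hv1.1 hv2.1 t1 t2 ht1 ht2
      have ht1X : t1 ∈ X C := ⟨v1, Finset.mem_inter.2 ⟨ht1, hv1.2⟩⟩
      have ht2X : t2 ∈ X C' := ⟨v2, Finset.mem_inter.2 ⟨ht2, hv2.2⟩⟩
      have h01 := (hXCn C hC).av (z0 := z0) (z1 := z1) (fun h => hz1 h.2) hz0 ht1X
      have h2y := (hXCn C' hC').av (z0 := z0) (z1 := z1) (fun h => hdis z0 hz0 h.1) ht2X hy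
      have hqa : Av T s(z0, z1) z1 y :=
        ⟨q, fun h => hq z0 (q.fst_mem_support_of_mem_edges h) hz0⟩
      have hall : Av T s(z0, z1) z0 z1 := h01.trans (h12.trans (h2y.trans hqa.symm))
      obtain ⟨w', hw'⟩ := hall
      have hbr := (SimpleGraph.isAcyclic_iff_forall_adj_isBridge.1 hT.isAcyclic) hadj
      rw [SimpleGraph.isBridge_iff_forall_walk_mem_edges] at hbr
      exact hw' (hbr w')

end

end Pool.Agent.H20.Tpf
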